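import Mathlib
import Pool.Agent.W795.Ode

/-!
# Persistence of non-degenerate periodic orbits with an `L¹` bound on the displacement
-/

namespace Pool.Agent.V1185.Persist

open Set Filter Topology MeasureTheory
open Pool.Agent.W795

variable {V : Type*} [NormedAddCommGroup V] [NormedSpace ℝ V] [FiniteDimensional ℝ V]

/-- A periodic orbit in normalised time: `y' = T f(y)`, `y(s+1) = y(s)`. -/
structure Orb (f : V → V) (y : ℝ → V) (T : ℝ) : Prop where
  pos : 0 < T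
  ode : ∀ s, HasDerivAt y (T • f (y s)) s
  per : ∀ s, y (s + 1) = y s

/-- Fundamental solution of `ξ' = A(s) ξ`. -/
def IsFund (A Φ : ℝ → V →L[ℝ] V) : Prop := Φ 0 = 1 ∧ ∀ s, HasDerivAt Φ (A s * Φ s) s

/-- Non-degeneracy: `(w, τ) ↦ (M - 1) w + τ f(y(0))` is onto, `M` the monodromy. -/
def Nondeg (f : V → V) (y : ℝ → V) (T : ℝ) : Prop :=
  ∃ Φ : ℝ → V →L[ℝ] V, IsFund (fun s => T • fderiv ℝ f (y s)) Φ ∧
    ∀ v, ∃ (w : V) (τ : ℝ), Φ 1 w - w + τ • f (y 0) = v

instance : CompleteSpace V := FiniteDimensional.complete ℝ V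

lemma exists_fund {A : ℝ → V →L[ℝ] V} (hA : Continuous A) : ∃ Φ, IsFund A Φ := by
  obtain ⟨Φ, h0, h⟩ := exists_linear (E := V →L[ℝ] V)
    (B := fun s => ContinuousLinearMap.mul ℝ (V →L[ℝ] V) (A s)) (by fun_prop) 1
  exact ⟨Φ, h0, fun s => by simpa using h s⟩

lemma exists_fund_inv {A : ℝ → V →L[ℝ] V} (hA : Continuous A) :
    ∃ Ψ : ℝ → V →L[ℝ] V, Ψ 0 = 1 ∧ ∀ s, HasDerivAt Ψ (-(Ψ s * A s)) s := by
  obtain ⟨Φ, h0, h⟩ := exists_linear (E := V →L[ℝ] V)
    (B := fun s => (ContinuousLinearMap.mul ℝ (V →L[ℝ] V)).flip (-A s)) (by fun_prop) 1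
  exact ⟨Φ, h0, fun s => by simpa using h s⟩

lemma inv_mul {A Φ Ψ : ℝ → V →L[ℝ] V} (hΦ : IsFund A Φ) (h0 : Ψ 0 = 1)
    (hΨ : ∀ s, HasDerivAt Ψ (-(Ψ s * A s)) s) (s : ℝ) : Ψ s * Φ s = 1 := by
  have hd : ∀ s, HasDerivAt (fun s => Ψ s * Φ s) 0 s := by
    intro s
    refine ((hΨ s).mul (hΦ.2 s)).congr_deriv ?_
    noncomm_ring
  have hc : Ψ s * Φ s = Ψ 0 * Φ 0 := is_const_of_deriv_eq_zero
    (fun s => (hd s).differentiableAt) (fun s => (hd s).deriv) s 0
  rw [hc, h0, hΦ.1, one_mul]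

lemma mul_inv {A Φ Ψ : ℝ → V →L[ℝ] V} (hA : Continuous A) (hΦ : IsFund A Φ) (h0 : Ψ 0 = 1)
    (hΨ : ∀ s, HasDerivAt Ψ (-(Ψ s * A s)) s) (s : ℝ) : Φ s * Ψ s = 1 := by
  have hX : ∀ s, HasDerivAt (fun s => Φ s * Ψ s)
      ((ContinuousLinearMap.mul ℝ (V →L[ℝ] V) (A s) -
        (ContinuousLinearMap.mul ℝ (V →L[ℝ] V)).flip (A s)) (Φ s * Ψ s)) s := by
    intro s
    refine ((hΦ.2 s).mul (hΨ s)).congr_deriv ?_
    simp only [sub_apply, ContinuousLinearMap.mul_apply',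
      ContinuousLinearMap.flip_apply]
    noncomm_ring
  have hY : ∀ s : ℝ, HasDerivAt (fun _ : ℝ => (1 : V →L[ℝ] V))
      ((ContinuousLinearMap.mul ℝ (V →L[ℝ] V) (A s) -
        (ContinuousLinearMap.mul ℝ (V →L[ℝ] V)).flip (A s)) 1) s := by
    intro s
    simpa using hasDerivAt_const s (1 : V →L[ℝ] V)
  have := linear_unique (B := fun s => ContinuousLinearMap.mul ℝ (V →L[ℝ] V) (A s) -
        (ContinuousLinearMap.mul ℝ (V →L[ℝ] V)).flip (A s)) (by fun_prop) hX hY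
        (by simp [hΦ.1, h0])
  exact congrFun this s

/-! ### Basic facts on periodic orbits -/

lemma Orb.continuous {f : V → V} {y : ℝ → V} {T : ℝ} (h : Orb f y T) : Continuous y :=
  continuous_iff_continuousAt.mpr fun s => (h.ode s).continuousAt

lemma per_int {α : Type*} {y : ℝ → α} (h : ∀ s, y (s + 1) = y s) (s : ℝ) :
    y (Int.fract s) = y s := by
  have hp : Function.Periodic y 1 := h
  have := hp.sub_zsmul_eq (x := s) ⌊s⌋
  rw [zsmul_one] at this
  exact this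

lemma exists_bound_of_per {y : ℝ → ℝ} (hc : Continuous y) (h : ∀ s, y (s + 1) = y s) :
    ∃ C, ∀ s, y s ≤ C := by
  obtain ⟨C, hC⟩ := (isCompact_Icc (a := (0 : ℝ)) (b := 1)).bddAbove_image hc.continuousOn
  refine ⟨C, fun s => ?_⟩
  rw [← per_int h s]
  exact hC ⟨_, ⟨Int.fract_nonneg s, (Int.fract_lt_one s).le⟩, rfl⟩

/-- `f(y(s))` solves the variational equation. -/
lemma fund_apply_f {f : V → V} (hf : ContDiff ℝ 1 f) {y : ℝ → V} {T : ℝ} (h : Orb f y T)
    {Φ : ℝ → V →L[ℝ] V} (hΦ : IsFund (fun s => T • fderiv ℝ f (y s)) Φ) (s : ℝ) :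
    Φ s (f (y 0)) = f (y s) := by
  have hA : Continuous fun s => T • fderiv ℝ f (y s) :=
    (((hf.continuous_fderiv one_ne_zero).comp h.continuous).const_smul T)
  have h1 : ∀ s, HasDerivAt (fun s => Φ s (f (y 0)))
      ((T • fderiv ℝ f (y s)) (Φ s (f (y 0)))) s := by
    intro s
    have := (hΦ.2 s).clm_apply (hasDerivAt_const s (f (y 0)))
    simpa using this
  have h2 : ∀ s, HasDerivAt (fun s => f (y s)) ((T • fderiv ℝ f (y s)) (f (y s))) s := by
    intro s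
    have h3 : HasDerivAt (fun s => f (y s)) (fderiv ℝ f (y s) (T • f (y s))) s :=
      ((hf.differentiable one_ne_zero) (y s)).hasFDerivAt.comp_hasDerivAt s (h.ode s)
    simpa using h3
  exact congrFun (linear_unique hA h1 h2 (by simp [hΦ.1])) s

/-! ### The solution operator of the linearised periodic problem -/

section Lin

variable (Φ Ψ : ℝ → V →L[ℝ] V) (K : V →L[ℝ] V × ℝ) (f0 : V)

/-- The initial value and the period correction. -/
noncomputable def kk (h : ℝ → V) : V × ℝ := K (-(Φ 1 (∫ r in (0 : ℝ)..1, Ψ r (h r))))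

/-- The periodic solution of `w' = A w + τ f(y) + h`. -/
noncomputable def Lw (h : ℝ → V) (s : ℝ) : V :=
  Φ s ((kk Φ Ψ K h).1 + ((kk Φ Ψ K h).2 * s) • f0 + ∫ r in (0 : ℝ)..s, Ψ r (h r))

variable {Φ Ψ K f0}

lemma Lw_ode {A : ℝ → V →L[ℝ] V} (hA : Continuous A) (hΦ : IsFund A Φ) (h0 : Ψ 0 = 1)
    (hΨ : ∀ s, HasDerivAt Ψ (-(Ψ s * A s)) s) {h : ℝ → V} (hh : Continuous h) (s : ℝ) :
    HasDerivAt (Lw Φ Ψ K f0 h)
      (A s (Lw Φ Ψ K f0 h s) + (kk Φ Ψ K h).2 • Φ s f0 + h s) s := by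
  have hΨc : Continuous Ψ := continuous_iff_continuousAt.mpr fun s => (hΨ s).continuousAt
  have hc : Continuous fun r => Ψ r (h r) := hΨc.clm_apply hh
  have h1 : HasDerivAt (fun s => ∫ r in (0 : ℝ)..s, Ψ r (h r)) (Ψ s (h s)) s :=
    intervalIntegral.integral_hasDerivAt_right (hc.intervalIntegrable _ _)
      (hc.stronglyMeasurableAtFilter _ _) hc.continuousAt
  have h2 : HasDerivAt (fun s : ℝ => ((kk Φ Ψ K h).2 * s) • f0) ((kk Φ Ψ K h).2 • f0) s := by
    have := ((hasDerivAt_id s).const_mul (kk Φ Ψ K h).2).smul_const f0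
    simpa using this
  have h3 := (hΦ.2 s).clm_apply ((h2.const_add (kk Φ Ψ K h).1).fun_add h1)
  refine h3.congr_deriv ?_
  have h4 : Φ s (Ψ s (h s)) = h s := by
    have := mul_inv hA hΦ h0 hΨ s
    have h5 := congrArg (fun X : V →L[ℝ] V => X (h s)) this
    simpa using h5
  rw [map_add (Φ s), h4, map_smul]
  simp only [Lw, mul_apply_eq_comp]
  abel

lemma Lw_per {A : ℝ → V →L[ℝ] V} (hA : Continuous A) (hAp : ∀ s, A (s + 1) = A s)
    (hΦ : IsFund A Φ) (h0 : Ψ 0 = 1)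
    (hΨ : ∀ s, HasDerivAt Ψ (-(Ψ s * A s)) s)
    (hf0 : ∀ s, Φ (s + 1) f0 = Φ s f0)
    (hK : ∀ v, Φ 1 (K v).1 - (K v).1 + (K v).2 • f0 = v)
    {h : ℝ → V} (hh : Continuous h) (hhp : ∀ s, h (s + 1) = h s) (s : ℝ) :
    Lw Φ Ψ K f0 h (s + 1) = Lw Φ Ψ K f0 h s := by
  set L := Lw Φ Ψ K f0 h with hL
  have hd : ∀ s, HasDerivAt (fun s => L (s + 1) - L s) (A s (L (s + 1) - L s)) s := by
    intro s
    have h1 := (Lw_ode (K := K) (f0 := f0) hA hΦ h0 hΨ hh (s + 1)).comp_add_const s 1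
    have h2 := Lw_ode (K := K) (f0 := f0) hA hΦ h0 hΨ hh s
    refine (h1.fun_sub h2).congr_deriv ?_
    rw [hAp, hf0, hhp, map_sub]
    abel
  have hz : ∀ s : ℝ, HasDerivAt (fun _ : ℝ => (0 : V)) (A s 0) s := by
    intro s; simpa using hasDerivAt_const s (0 : V)
  have h01 : L (0 + 1) - L 0 = 0 := by
    have e0 : L 0 = (kk Φ Ψ K h).1 := by
      simp [hL, Lw, hΦ.1]
    have e1 : L (0 + 1) = Φ 1 (kk Φ Ψ K h).1 + (kk Φ Ψ K h).2 • f0 +
        Φ 1 (∫ r in (0 : ℝ)..1, Ψ r (h r)) := by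
      have hf1 : Φ 1 f0 = f0 := by
        have := hf0 0
        rw [zero_add, hΦ.1] at this
        simpa using this
      simp only [hL, Lw, zero_add, mul_one, map_add, map_smul, hf1]
    have e2 := hK (-(Φ 1 (∫ r in (0 : ℝ)..1, Ψ r (h r))))
    rw [e0, e1]
    change Φ 1 (kk Φ Ψ K h).1 - (kk Φ Ψ K h).1 + (kk Φ Ψ K h).2 • f0 = _ at e2
    rw [sub_eq_zero]
    have e3 : Φ 1 (kk Φ Ψ K h).1 + (kk Φ Ψ K h).2 • f0 =
        (kk Φ Ψ K h).1 + (Φ 1 (kk Φ Ψ K h).1 - (kk Φ Ψ K h).1 + (kk Φ Ψ K h).2 • f0) := by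
      abel
    rw [e3, e2]
    abel
  have := linear_unique hA hd hz (by simpa using h01)
  have h3 : L (s + 1) - L s = 0 := congrFun this s
  exact sub_eq_zero.mp h3

lemma kk_sub (hΨ : Continuous Ψ) {h h' : ℝ → V} (hh : Continuous h) (hh' : Continuous h') :
    kk Φ Ψ K (fun s => h s - h' s) = kk Φ Ψ K h - kk Φ Ψ K h' := by
  unfold kk
  have h1 : ∫ r in (0 : ℝ)..1, Ψ r (h r - h' r) =
      (∫ r in (0 : ℝ)..1, Ψ r (h r)) - ∫ r in (0 : ℝ)..1, Ψ r (h' r) := by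
    rw [← intervalIntegral.integral_sub]
    · simp
    · exact (hΨ.clm_apply hh).intervalIntegrable _ _
    · exact (hΨ.clm_apply hh').intervalIntegrable _ _
  rw [h1, map_sub, ← map_sub K]
  congr 1
  abel

lemma Lw_sub (hΨ : Continuous Ψ) {h h' : ℝ → V} (hh : Continuous h) (hh' : Continuous h')
    (s : ℝ) : Lw Φ Ψ K f0 (fun s => h s - h' s) s = Lw Φ Ψ K f0 h s - Lw Φ Ψ K f0 h' s := by
  unfold Lw
  have h1 : ∫ r in (0 : ℝ)..s, Ψ r (h r - h' r) =
      (∫ r in (0 : ℝ)..s, Ψ r (h r)) - ∫ r in (0 : ℝ)..s, Ψ r (h' r) := by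
    rw [← intervalIntegral.integral_sub]
    · simp
    · exact (hΨ.clm_apply hh).intervalIntegrable _ _
    · exact (hΨ.clm_apply hh').intervalIntegrable _ _
  rw [h1, kk_sub hΨ hh hh', ← map_sub (Φ s)]
  congr 1
  simp only [Prod.fst_sub, Prod.snd_sub, sub_mul, sub_smul]
  abel

/-- The `L¹` bound for the solution operator. -/
lemma exists_lin_bound (hΦ : Continuous Φ) (hΨ : Continuous Ψ) :
    ∃ C : ℝ, 0 < C ∧ ∀ h : ℝ → V, Continuous h →
      (∀ s, Lw Φ Ψ K f0 h (s + 1) = Lw Φ Ψ K f0 h s) →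
      (∀ s, ‖Lw Φ Ψ K f0 h s‖ ≤ C * ∫ r in (0 : ℝ)..1, ‖h r‖) ∧
      |(kk Φ Ψ K h).2| ≤ C * ∫ r in (0 : ℝ)..1, ‖h r‖ := by
  obtain ⟨a, ha⟩ := (isCompact_Icc (a := (0 : ℝ)) (b := 1)).exists_bound_of_continuousOn
    hΦ.continuousOn
  obtain ⟨b, hb⟩ := (isCompact_Icc (a := (0 : ℝ)) (b := 1)).exists_bound_of_continuousOn
    hΨ.continuousOn
  have ha0 : 0 ≤ a := (norm_nonneg _).trans (ha 0 ⟨le_rfl, zero_le_one⟩)
  have hb0 : 0 ≤ b := (norm_nonneg _).trans (hb 0 ⟨le_rfl, zero_le_one⟩)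
  set k := ‖K‖ * (a * b) with hk
  have hk0 : 0 ≤ k := by positivity
  refine ⟨k + a * (k + k * ‖f0‖ + b) + 1, by positivity, fun h hh hper => ?_⟩
  set I := ∫ r in (0 : ℝ)..1, ‖h r‖ with hI
  have hI0 : 0 ≤ I := intervalIntegral.integral_nonneg zero_le_one fun _ _ => norm_nonneg _
  have hint : ∀ s ∈ Icc (0 : ℝ) 1, ‖∫ r in (0 : ℝ)..s, Ψ r (h r)‖ ≤ b * I := by
    intro s hs
    refine (intervalIntegral.norm_integral_le_integral_norm hs.1).trans ?_
    have h1 : ∫ r in (0 : ℝ)..s, ‖Ψ r (h r)‖ ≤ ∫ r in (0 : ℝ)..s, b * ‖h r‖ := by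
      refine intervalIntegral.integral_mono_on hs.1
        ((hΨ.clm_apply hh).norm.intervalIntegrable _ _)
        ((continuous_const.mul hh.norm).intervalIntegrable _ _) fun r hr => ?_
      exact ((Ψ r).le_opNorm _).trans (mul_le_mul_of_nonneg_right (hb r ⟨hr.1, hr.2.trans hs.2⟩)
        (norm_nonneg _))
    refine h1.trans ?_
    rw [intervalIntegral.integral_const_mul]
    refine mul_le_mul_of_nonneg_left ?_ hb0
    refine intervalIntegral.integral_mono_interval le_rfl hs.1 hs.2 ?_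
      (hh.norm.intervalIntegrable _ _)
    exact Eventually.of_forall fun _ => norm_nonneg _
  have hkk : ‖kk Φ Ψ K h‖ ≤ k * I := by
    unfold kk
    refine (K.le_opNorm _).trans ?_
    rw [norm_neg, hk, mul_assoc]
    refine mul_le_mul_of_nonneg_left ?_ (norm_nonneg _)
    refine ((Φ 1).le_opNorm _).trans ?_
    rw [mul_assoc]
    exact mul_le_mul (ha 1 ⟨zero_le_one, le_rfl⟩) (hint 1 ⟨zero_le_one, le_rfl⟩)
      (norm_nonneg _) ha0
  have hk1 : ‖(kk Φ Ψ K h).1‖ ≤ k * I := (norm_fst_le _).trans hkk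
  have hk2 : |(kk Φ Ψ K h).2| ≤ k * I := (norm_snd_le (kk Φ Ψ K h)).trans hkk
  have h01 : ∀ s ∈ Icc (0 : ℝ) 1, ‖Lw Φ Ψ K f0 h s‖ ≤ a * (k + k * ‖f0‖ + b) * I := by
    intro s hs
    unfold Lw
    refine ((Φ s).le_opNorm _).trans ?_
    rw [mul_assoc]
    refine mul_le_mul (ha s hs) ?_ (norm_nonneg _) ha0
    refine (norm_add_le _ _).trans ?_
    have h2 : ‖(kk Φ Ψ K h).1 + ((kk Φ Ψ K h).2 * s) • f0‖ ≤ k * I + k * I * ‖f0‖ := by
      refine (norm_add_le _ _).trans (add_le_add hk1 ?_)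
      rw [norm_smul]
      refine mul_le_mul_of_nonneg_right ?_ (norm_nonneg _)
      rw [norm_mul, Real.norm_eq_abs, Real.norm_eq_abs, abs_of_nonneg hs.1]
      calc |(kk Φ Ψ K h).2| * s ≤ |(kk Φ Ψ K h).2| * 1 :=
            mul_le_mul_of_nonneg_left hs.2 (abs_nonneg _)
        _ = |(kk Φ Ψ K h).2| := mul_one _
        _ ≤ k * I := hk2
    have h3 := hint s hs
    calc _ ≤ (k * I + k * I * ‖f0‖) + b * I := add_le_add h2 h3
      _ = (k + k * ‖f0‖ + b) * I := by ring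
  constructor
  · intro s
    rw [← per_int hper s]
    refine (h01 _ ⟨Int.fract_nonneg s, (Int.fract_lt_one s).le⟩).trans ?_
    refine mul_le_mul_of_nonneg_right ?_ hI0
    linarith
  · refine hk2.trans (mul_le_mul_of_nonneg_right ?_ hI0)
    have : 0 ≤ a * (k + k * ‖f0‖ + b) := by positivity
    linarith

end Lin

/-! ### Local estimates -/

lemma exists_norm_bound {y : ℝ → V} (hc : Continuous y) (hp : ∀ s, y (s + 1) = y s) :
    ∃ R, 0 ≤ R ∧ ∀ s, ‖y s‖ ≤ R := by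
  obtain ⟨R, hR⟩ := exists_bound_of_per hc.norm (fun s => by rw [hp])
  exact ⟨R, (norm_nonneg _).trans (hR 0), hR⟩

lemma exists_lip {f : V → V} (hf : ContDiff ℝ 1 f) (R : ℝ) :
    ∃ L, 0 < L ∧ ∀ a b : V, ‖a‖ ≤ R → ‖b‖ ≤ R → ‖f a - f b‖ ≤ L * ‖a - b‖ := by
  obtain ⟨L, hL⟩ := (isCompact_closedBall (0 : V) R).exists_bound_of_continuousOn
    (hf.continuous_fderiv one_ne_zero).continuousOn
  refine ⟨|L| + 1, by positivity, fun a b ha hb => ?_⟩
  have h := (convex_closedBall (0 : V) R).norm_image_sub_le_of_norm_fderiv_le (𝕜 := ℝ) (C := L)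
    (fun x _ => (hf.differentiable one_ne_zero) x) hL
    (mem_closedBall_zero_iff.mpr hb) (mem_closedBall_zero_iff.mpr ha)
  refine h.trans (mul_le_mul_of_nonneg_right ?_ (norm_nonneg _))
  linarith [le_abs_self L]

lemma exists_radius {f : V → V} (hf : ContDiff ℝ 1 f) (R : ℝ) {ε : ℝ} (hε : 0 < ε) :
    ∃ r, 0 < r ∧ r ≤ 1 ∧ ∀ a v : V, ‖a‖ ≤ R → ‖v‖ ≤ r →
      ‖fderiv ℝ f (a + v) - fderiv ℝ f a‖ ≤ ε := by
  have h := (isCompact_closedBall (0 : V) (R + 1)).uniformContinuousOn_of_continuous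
    (hf.continuous_fderiv one_ne_zero).continuousOn
  rw [Metric.uniformContinuousOn_iff] at h
  obtain ⟨δ, hδ, h⟩ := h ε hε
  refine ⟨min (δ / 2) 1, by positivity, min_le_right _ _, fun a v ha hv => ?_⟩
  have hv1 : ‖v‖ ≤ 1 := hv.trans (min_le_right _ _)
  have hv2 : ‖v‖ ≤ δ / 2 := hv.trans (min_le_left _ _)
  have h1 := h (a + v) (mem_closedBall_zero_iff.mpr ((norm_add_le _ _).trans (by linarith)))
    a (mem_closedBall_zero_iff.mpr (by linarith)) (by
      rw [dist_eq_norm, add_sub_cancel_left]; linarith)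
  rw [dist_eq_norm] at h1
  exact h1.le

/-- First order Taylor estimate on balls along the orbit. -/
lemma taylor {f : V → V} (hf : ContDiff ℝ 1 f) {R ε r : ℝ}
    (h : ∀ a v : V, ‖a‖ ≤ R → ‖v‖ ≤ r → ‖fderiv ℝ f (a + v) - fderiv ℝ f a‖ ≤ ε)
    {a v w : V} (ha : ‖a‖ ≤ R) (hv : ‖v‖ ≤ r) (hw : ‖w‖ ≤ r) :
    ‖f (a + v) - f (a + w) - fderiv ℝ f a (v - w)‖ ≤ ε * ‖v - w‖ := by
  have h1 := (convex_closedBall a r).norm_image_sub_le_of_norm_fderiv_le' (𝕜 := ℝ) (f := f)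
    (φ := fderiv ℝ f a) (C := ε) (fun x _ => (hf.differentiable one_ne_zero) x) (fun x hx => by
      have := h a (x - a) ha (by rwa [mem_closedBall_iff_norm] at hx)
      rwa [add_sub_cancel] at this)
    (x := a + w) (y := a + v)
    (by rw [mem_closedBall_iff_norm, add_sub_cancel_left]; exact hw)
    (by rw [mem_closedBall_iff_norm, add_sub_cancel_left]; exact hv)
  have e : a + v - (a + w) = v - w := by abel
  rwa [e] at h1

/-- Non-degeneracy is stable. -/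
lemma nondeg_of_close {f : V → V} (hf : ContDiff ℝ 1 f) {y : ℝ → V} {T : ℝ} (hy : Orb f y T)
    (hn : Nondeg f y T) : ∃ η, 0 < η ∧ ∀ (f' : V → V) (y' : ℝ → V) (T' : ℝ),
      Continuous (fun s => T' • fderiv ℝ f' (y' s)) →
      (∀ s, ‖T' • fderiv ℝ f' (y' s) - T • fderiv ℝ f (y s)‖ ≤ η) →
      ‖f' (y' 0) - f (y 0)‖ ≤ η → Nondeg f' y' T' := by
  obtain ⟨Φ, hΦ, hsurj⟩ := hn
  -- a linear right inverse
  let S : V × ℝ →ₗ[ℝ] V :=
    ((Φ 1).toLinearMap - LinearMap.id).comp (LinearMap.fst ℝ V ℝ) +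
      (LinearMap.snd ℝ V ℝ).smulRight (f (y 0))
  have hS : ∀ p : V × ℝ, S p = Φ 1 p.1 - p.1 + p.2 • f (y 0) := fun p => by simp [S]
  have hSs : Function.Surjective S := fun v => by
    obtain ⟨w, τ, h⟩ := hsurj v
    exact ⟨(w, τ), by rw [hS]; exact h⟩
  obtain ⟨K0, hK0⟩ := S.exists_rightInverse_of_surjective (LinearMap.range_eq_top.mpr hSs)
  let K : V →L[ℝ] V × ℝ := K0.toContinuousLinearMap
  have hK : ∀ v, Φ 1 (K v).1 - (K v).1 + (K v).2 • f (y 0) = v := fun v => by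
    have := LinearMap.congr_fun hK0 v
    rw [LinearMap.comp_apply, hS] at this
    exact this
  have hA : Continuous fun s => T • fderiv ℝ f (y s) :=
    (((hf.continuous_fderiv one_ne_zero).comp hy.continuous).const_smul T)
  have hΦc : Continuous Φ := continuous_iff_continuousAt.mpr fun s => (hΦ.2 s).continuousAt
  obtain ⟨a, ha⟩ := (isCompact_Icc (a := (-1 : ℝ)) (b := 1)).exists_bound_of_continuousOn
    hΦc.continuousOn
  obtain ⟨b, hb⟩ := (isCompact_Icc (a := (-1 : ℝ)) (b := 1)).exists_bound_of_continuousOn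
    hA.continuousOn
  have ha0 : 0 ≤ a := (norm_nonneg _).trans (ha 0 ⟨by norm_num, zero_le_one⟩)
  have hb0 : 0 ≤ b := (norm_nonneg _).trans (hb 0 ⟨by norm_num, zero_le_one⟩)
  -- the constant
  set G : ℝ := Real.exp (b + 1) / (b + 1) with hG
  have hG0 : 0 < G := by positivity
  set Q : ℝ := (a * G + 1) * (‖K‖ + 1) with hQ
  have hQ0 : 0 < Q := by positivity
  refine ⟨min 1 (1 / (2 * Q)), by positivity, fun f' y' T' hA' hclose hf0 => ?_⟩
  set η := min 1 (1 / (2 * Q)) with hη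
  have hη0 : 0 < η := by positivity
  have hη1 : η ≤ 1 := min_le_left _ _
  have hη2 : η * Q ≤ 1 / 2 := by
    have : η ≤ 1 / (2 * Q) := min_le_right _ _
    calc η * Q ≤ 1 / (2 * Q) * Q := mul_le_mul_of_nonneg_right this hQ0.le
      _ = 1 / 2 := by field_simp
  obtain ⟨Φ', hΦ'⟩ := exists_fund hA'
  refine ⟨Φ', hΦ', ?_⟩
  -- closeness of the monodromies
  have hd : ∀ s, HasDerivAt (fun s => Φ' s - Φ s)
      ((T' • fderiv ℝ f' (y' s)) * (Φ' s - Φ s) +
        (T' • fderiv ℝ f' (y' s) - T • fderiv ℝ f (y s)) * Φ s) s := by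
    intro s
    refine ((hΦ'.2 s).fun_sub (hΦ.2 s)).congr_deriv ?_
    noncomm_ring
  have hgr := gronwall_two (E := V →L[ℝ] V) (δ := 0) (K := b + 1) (ε := η * a) (R := 1) hd
    (by simp [hΦ.1, hΦ'.1]) (fun s hs => by
      have hs' := abs_le.mp hs
      refine (norm_add_le _ _).trans (add_le_add ?_ ?_)
      · refine (norm_mul_le _ _).trans (mul_le_mul_of_nonneg_right ?_ (norm_nonneg _))
        have h1 := hclose s
        have h2 := hb s ⟨hs'.1, hs'.2⟩
        have h3 : T' • fderiv ℝ f' (y' s) = (T' • fderiv ℝ f' (y' s) - T • fderiv ℝ f (y s)) +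
          T • fderiv ℝ f (y s) := by abel
        rw [h3]
        refine (norm_add_le _ _).trans ?_
        linarith
      · exact (norm_mul_le _ _).trans (mul_le_mul (hclose s) (ha s ⟨hs'.1, hs'.2⟩)
          (norm_nonneg _) hη0.le)) 1 (by simp)
  have hM : ‖Φ' 1 - Φ 1‖ ≤ η * (a * G) := by
    refine hgr.trans ?_
    rw [gronwallBound_of_K_ne_0 (by positivity)]
    simp only [abs_one, mul_one, zero_mul, zero_add]
    rw [hG]
    have h1 : Real.exp (b + 1) - 1 ≤ Real.exp (b + 1) := by linarith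
    calc η * a / (b + 1) * (Real.exp (b + 1) - 1) ≤ η * a / (b + 1) * Real.exp (b + 1) :=
          mul_le_mul_of_nonneg_left h1 (by positivity)
      _ = η * (a * (Real.exp (b + 1) / (b + 1))) := by ring
  -- perturbed operator composed with `K`
  let S' : V × ℝ →L[ℝ] V := (Φ' 1 - 1).comp (ContinuousLinearMap.fst ℝ V ℝ) +
      (ContinuousLinearMap.snd ℝ V ℝ).smulRight (f' (y' 0))
  have hS' : ∀ p : V × ℝ, S' p = Φ' 1 p.1 - p.1 + p.2 • f' (y' 0) := fun p => by simp [S']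
  have hN : ‖(1 : V →L[ℝ] V) - S'.comp K‖ < 1 := by
    refine lt_of_le_of_lt (ContinuousLinearMap.opNorm_le_bound _ (M := 1 / 2) (by norm_num)
      fun v => ?_) (by norm_num)
    have h1 : ((1 : V →L[ℝ] V) - S'.comp K) v =
        -((Φ' 1 - Φ 1) (K v).1 + (K v).2 • (f' (y' 0) - f (y 0))) := by
      have h2 : (S'.comp K) v = S' (K v) := rfl
      rw [sub_apply, one_apply_eq_self, h2, hS', sub_apply, smul_sub]
      have h8 := hK v
      calc v - (Φ' 1 (K v).1 - (K v).1 + (K v).2 • f' (y' 0)) =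
          (Φ 1 (K v).1 - (K v).1 + (K v).2 • f (y 0)) -
            (Φ' 1 (K v).1 - (K v).1 + (K v).2 • f' (y' 0)) := by rw [h8]
        _ = _ := by abel
    rw [h1, norm_neg]
    have h3 : ‖(K v).1‖ ≤ ‖K‖ * ‖v‖ := (norm_fst_le _).trans (K.le_opNorm v)
    have h4 : ‖(K v).2‖ ≤ ‖K‖ * ‖v‖ := (norm_snd_le _).trans (K.le_opNorm v)
    have h5 : ‖(Φ' 1 - Φ 1) (K v).1‖ ≤ η * (a * G) * (‖K‖ * ‖v‖) :=
      (ContinuousLinearMap.le_opNorm _ _).trans (mul_le_mul hM h3 (norm_nonneg _) (by positivity))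
    have h6 : ‖(K v).2 • (f' (y' 0) - f (y 0))‖ ≤ (‖K‖ * ‖v‖) * η := by
      rw [norm_smul]
      exact mul_le_mul h4 hf0 (norm_nonneg _) (by positivity)
    refine (norm_add_le _ _).trans ((add_le_add h5 h6).trans ?_)
    have h7 : η * (a * G) * (‖K‖ * ‖v‖) + (‖K‖ * ‖v‖) * η = η * ((a * G + 1) * ‖K‖) * ‖v‖ := by
      ring
    rw [h7]
    refine mul_le_mul_of_nonneg_right (le_trans ?_ hη2) (norm_nonneg _)
    refine mul_le_mul_of_nonneg_left ?_ hη0.le
    rw [hQ]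
    refine mul_le_mul_of_nonneg_left ?_ (by positivity)
    linarith
  have hunit : IsUnit (S'.comp K) := by
    have := (Units.oneSub _ hN).isUnit
    simpa using this
  obtain ⟨U, hU⟩ := hunit
  intro v
  refine ⟨(K ((↑U⁻¹ : V →L[ℝ] V) v)).1, (K ((↑U⁻¹ : V →L[ℝ] V) v)).2, ?_⟩
  rw [← hS']
  have h1 : (S'.comp K) ((↑U⁻¹ : V →L[ℝ] V) v) = v := by
    rw [← hU]
    have := congrArg (fun X : V →L[ℝ] V => X v) U.mul_inv
    exact this
  exact h1

/-! ### The persistence theorem -/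

/-- The nonlinear remainder. -/
noncomputable def NN (f g : V → V) (y : ℝ → V) (T l : ℝ) (w : ℝ → V) (τ : ℝ) (s : ℝ) : V :=
  (T + τ) • f (y s + w s) + ((T + τ) * l) • g (y s + w s) - T • f (y s) -
    T • (fderiv ℝ f (y s)) (w s) - τ • f (y s)

lemma NN_continuous {f g : V → V} (hf : ContDiff ℝ 1 f) (hg : ContDiff ℝ 1 g) {y w : ℝ → V}
    (hy : Continuous y) (hw : Continuous w) (T l τ : ℝ) : Continuous (NN f g y T l w τ) := by
  have h1 := hf.continuous
  have h2 := hg.continuous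
  have h3 : Continuous fun s => (fderiv ℝ f (y s)) (w s) :=
    ((hf.continuous_fderiv one_ne_zero).comp hy).clm_apply hw
  unfold NN
  fun_prop

lemma NN_diff {f g : V → V} {y w w' : ℝ → V} {T l τ τ' : ℝ} {s : ℝ} {ε r L B D : ℝ}
    (hT : 0 < T) (hr1 : r ≤ 1) (hr0 : 0 ≤ r) (hB0 : 0 ≤ B) (hL0 : 0 ≤ L)
    (hτ : |τ| ≤ r) (hw'r : ‖w' s‖ ≤ r)
    (hD1 : ‖w s - w' s‖ ≤ D) (hD2 : |τ - τ'| ≤ D)
    (h1 : ‖f (y s + w s) - f (y s + w' s) - fderiv ℝ f (y s) (w s - w' s)‖ ≤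
      ε * ‖w s - w' s‖)
    (hε : 0 ≤ ε)
    (h2 : ‖f (y s + w s) - f (y s + w' s)‖ ≤ L * ‖w s - w' s‖)
    (h3 : ‖f (y s + w' s) - f (y s)‖ ≤ L * ‖w' s‖)
    (h4 : ‖g (y s + w s) - g (y s + w' s)‖ ≤ B * ‖w s - w' s‖)
    (h5 : ‖g (y s + w' s)‖ ≤ B) :
    ‖NN f g y T l w τ s - NN f g y T l w' τ' s‖ ≤
      (T * ε + 2 * r * L + |l| * ((T + 2) * B)) * D := by
  have hD0 : 0 ≤ D := (norm_nonneg _).trans hD1
  have e : NN f g y T l w τ s - NN f g y T l w' τ' s =
      T • (f (y s + w s) - f (y s + w' s) - fderiv ℝ f (y s) (w s - w' s)) +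
      τ • (f (y s + w s) - f (y s + w' s)) + (τ - τ') • (f (y s + w' s) - f (y s)) +
      l • ((T + τ) • (g (y s + w s) - g (y s + w' s)) + (τ - τ') • g (y s + w' s)) := by
    unfold NN
    rw [map_sub]
    module
  rw [e]
  have b1 : ‖T • (f (y s + w s) - f (y s + w' s) - fderiv ℝ f (y s) (w s - w' s))‖ ≤
      T * ε * D := by
    rw [norm_smul, Real.norm_of_nonneg hT.le, mul_assoc]
    exact mul_le_mul_of_nonneg_left (h1.trans (mul_le_mul_of_nonneg_left hD1 hε)) hT.le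
  have b2 : ‖τ • (f (y s + w s) - f (y s + w' s))‖ ≤ r * L * D := by
    rw [norm_smul, mul_assoc]
    exact mul_le_mul hτ (h2.trans (mul_le_mul_of_nonneg_left hD1 hL0)) (norm_nonneg _) hr0
  have b3 : ‖(τ - τ') • (f (y s + w' s) - f (y s))‖ ≤ r * L * D := by
    rw [norm_smul]
    calc ‖τ - τ'‖ * ‖f (y s + w' s) - f (y s)‖ ≤ D * (L * r) :=
          mul_le_mul hD2 (h3.trans (mul_le_mul_of_nonneg_left hw'r hL0)) (norm_nonneg _) hD0
      _ = r * L * D := by ring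
  have b4 : ‖l • ((T + τ) • (g (y s + w s) - g (y s + w' s)) + (τ - τ') • g (y s + w' s))‖ ≤
      |l| * ((T + 2) * B) * D := by
    rw [norm_smul, mul_assoc, Real.norm_eq_abs]
    refine mul_le_mul_of_nonneg_left ?_ (abs_nonneg _)
    have c1 : ‖(T + τ) • (g (y s + w s) - g (y s + w' s))‖ ≤ (T + 1) * (B * D) := by
      rw [norm_smul]
      refine mul_le_mul ?_ (h4.trans (mul_le_mul_of_nonneg_left hD1 hB0)) (norm_nonneg _)
        (by positivity)
      rw [Real.norm_eq_abs]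
      refine (abs_add_le _ _).trans ?_
      rw [abs_of_pos hT]
      linarith
    have c2 : ‖(τ - τ') • g (y s + w' s)‖ ≤ D * B := by
      rw [norm_smul]
      exact mul_le_mul hD2 h5 (norm_nonneg _) hD0
    refine (norm_add_le _ _).trans ((add_le_add c1 c2).trans (le_of_eq ?_))
    ring
  refine (norm_add_le _ _).trans ((add_le_add ((norm_add_le _ _).trans (add_le_add
    ((norm_add_le _ _).trans (add_le_add b1 b2)) b3)) b4).trans (le_of_eq ?_))
  ring

theorem persist {f : V → V} (hf : ContDiff ℝ 1 f) {y : ℝ → V} {T : ℝ} (hy : Orb f y T)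
    (hn : Nondeg f y T) : ∃ C : ℝ, 0 < C ∧ ∀ g : V → V, ContDiff ℝ 1 g →
      ∀ B : ℝ, (∀ z, ‖g z‖ ≤ B ∧ ‖fderiv ℝ g z‖ ≤ B) → ∀ ρ : ℝ, 0 < ρ →
      ∃ l₀ : ℝ, 0 < l₀ ∧ ∀ l : ℝ, |l| < l₀ → ∃ (y' : ℝ → V) (T' : ℝ),
        Orb (fun z => f z + l • g z) y' T' ∧ Nondeg (fun z => f z + l • g z) y' T' ∧
        |T' - T| < ρ ∧ (∀ s, ‖y' s - y s‖ < ρ) ∧
        ∀ s, ‖y' s - y s‖ ≤ C * |l| * ∫ r in (0 : ℝ)..1, ‖g (y r)‖ := by
  obtain ⟨η, hη0, hη⟩ := nondeg_of_close hf hy hn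
  obtain ⟨Φ, hΦ, hsurj⟩ := hn
  have hyc := hy.continuous
  have hTp := hy.pos
  -- right inverse
  let S : V × ℝ →ₗ[ℝ] V :=
    ((Φ 1).toLinearMap - LinearMap.id).comp (LinearMap.fst ℝ V ℝ) +
      (LinearMap.snd ℝ V ℝ).smulRight (f (y 0))
  have hS : ∀ p : V × ℝ, S p = Φ 1 p.1 - p.1 + p.2 • f (y 0) := fun p => by simp [S]
  have hSs : Function.Surjective S := fun v => by
    obtain ⟨w, τ, h⟩ := hsurj v
    exact ⟨(w, τ), by rw [hS]; exact h⟩
  obtain ⟨K0, hK0⟩ := S.exists_rightInverse_of_surjective (LinearMap.range_eq_top.mpr hSs)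
  let K : V →L[ℝ] V × ℝ := K0.toContinuousLinearMap
  have hK : ∀ v, Φ 1 (K v).1 - (K v).1 + (K v).2 • f (y 0) = v := fun v => by
    have := LinearMap.congr_fun hK0 v
    rw [LinearMap.comp_apply, hS] at this
    exact this
  have hA : Continuous fun s => T • fderiv ℝ f (y s) :=
    (((hf.continuous_fderiv one_ne_zero).comp hyc).const_smul T)
  have hAp : ∀ s, (fun s => T • fderiv ℝ f (y s)) (s + 1) = (fun s => T • fderiv ℝ f (y s)) s :=
    fun s => by simp only [hy.per]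
  have hΦc : Continuous Φ := continuous_iff_continuousAt.mpr fun s => (hΦ.2 s).continuousAt
  obtain ⟨Ψ, hΨ0, hΨ⟩ := exists_fund_inv hA
  have hΨc : Continuous Ψ := continuous_iff_continuousAt.mpr fun s => (hΨ s).continuousAt
  have hff := fun s => fund_apply_f hf hy hΦ s
  have hf0 : ∀ s, Φ (s + 1) (f (y 0)) = Φ s (f (y 0)) := fun s => by rw [hff, hff, hy.per]
  obtain ⟨CL, hCL0, hCL⟩ := exists_lin_bound (K := K) (f0 := f (y 0)) hΦc hΨc
  obtain ⟨R, hR0, hR⟩ := exists_norm_bound hyc hy.per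
  obtain ⟨L, hL0, hL⟩ := exists_lip hf (R + 1)
  obtain ⟨bf, hbf⟩ := exists_bound_of_per (y := fun s => ‖fderiv ℝ f (y s)‖)
    (((hf.continuous_fderiv one_ne_zero).comp hyc).norm) (fun s => by rw [hy.per])
  refine ⟨2 * CL * T, by positivity, fun g hg B hB ρ hρ => ?_⟩
  have hB0 : 0 ≤ B := (norm_nonneg _).trans (hB 0).1
  have hgl : ∀ a b : V, ‖g a - g b‖ ≤ B * ‖a - b‖ := fun a b =>
    convex_univ.norm_image_sub_le_of_norm_fderiv_le (𝕜 := ℝ)
      (fun x _ => (hg.differentiable one_ne_zero) x) (fun x _ => (hB x).2) (mem_univ _)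
      (mem_univ _)
  -- choice of the radius
  obtain ⟨r1, hr10, hr11, hr1⟩ := exists_radius hf R (ε := 1 / (8 * CL * T)) (by positivity)
  obtain ⟨r2, hr20, hr21, hr2⟩ := exists_radius hf R (ε := η / (4 * (T + 1))) (by positivity)
  have hbf0 : 0 ≤ bf := (norm_nonneg _).trans (hbf 0)
  obtain ⟨r, hr0, hrr1, hrr2, hrρ, hrT, hrL, hrb, hrL2⟩ : ∃ r : ℝ, 0 < r ∧ r ≤ r1 ∧ r ≤ r2 ∧
      r ≤ ρ / 2 ∧ r ≤ T / 2 ∧ CL * (2 * r * L) ≤ 1 / 8 ∧ r * bf ≤ η / 4 ∧ r * L ≤ η / 2 := by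
    refine ⟨min r1 (min r2 (min (ρ / 2) (min (T / 2) (min (1 / (16 * CL * L))
      (min (η / (4 * (bf + 1))) (η / (2 * L))))))), by positivity, min_le_left _ _,
      ?_, ?_, ?_, ?_, ?_, ?_⟩
    · exact (min_le_right _ _).trans (min_le_left _ _)
    · exact (min_le_right _ _).trans ((min_le_right _ _).trans (min_le_left _ _))
    · exact (min_le_right _ _).trans ((min_le_right _ _).trans ((min_le_right _ _).trans
        (min_le_left _ _)))
    · have h : min r1 (min r2 (min (ρ / 2) (min (T / 2) (min (1 / (16 * CL * L))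
          (min (η / (4 * (bf + 1))) (η / (2 * L))))))) ≤ 1 / (16 * CL * L) :=
        (min_le_right _ _).trans ((min_le_right _ _).trans ((min_le_right _ _).trans
        ((min_le_right _ _).trans (min_le_left _ _))))
      rw [le_div_iff₀ (by positivity)] at h
      linarith
    · have h : min r1 (min r2 (min (ρ / 2) (min (T / 2) (min (1 / (16 * CL * L))
          (min (η / (4 * (bf + 1))) (η / (2 * L))))))) ≤ η / (4 * (bf + 1)) :=
        (min_le_right _ _).trans ((min_le_right _ _).trans ((min_le_right _ _).trans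
        ((min_le_right _ _).trans ((min_le_right _ _).trans (min_le_left _ _)))))
      set m := min r1 (min r2 (min (ρ / 2) (min (T / 2) (min (1 / (16 * CL * L))
          (min (η / (4 * (bf + 1))) (η / (2 * L))))))) with hm
      have hm0 : 0 < m := by positivity
      rw [le_div_iff₀ (by positivity)] at h
      nlinarith
    · have h : min r1 (min r2 (min (ρ / 2) (min (T / 2) (min (1 / (16 * CL * L))
          (min (η / (4 * (bf + 1))) (η / (2 * L))))))) ≤ η / (2 * L) :=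
        (min_le_right _ _).trans ((min_le_right _ _).trans ((min_le_right _ _).trans
        ((min_le_right _ _).trans ((min_le_right _ _).trans (min_le_right _ _)))))
      rw [le_div_iff₀ (by positivity)] at h
      linarith
  have hr1' : r ≤ 1 := hrr1.trans hr11
  refine ⟨min (1 / (4 * CL * ((T + 2) * (B + 1)))) (min (r / (2 * CL * T * (B + 1)))
    (η / (4 * (T + 1) * (B + 1)))), by positivity, fun l hl => ?_⟩
  have hla : CL * (|l| * ((T + 2) * B)) ≤ 1 / 4 := by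
    have h : |l| ≤ 1 / (4 * CL * ((T + 2) * (B + 1))) := hl.le.trans (min_le_left _ _)
    rw [le_div_iff₀ (by positivity)] at h
    have h2 : 0 ≤ |l| * CL * (T + 2) := by positivity
    nlinarith
  have hlb : CL * (T * |l| * B) ≤ r / 2 := by
    have h : |l| ≤ r / (2 * CL * T * (B + 1)) :=
      hl.le.trans ((min_le_right _ _).trans (min_le_left _ _))
    rw [le_div_iff₀ (by positivity)] at h
    have h2 : 0 ≤ |l| * CL * T := by positivity
    nlinarith
  have hlc : (T + 1) * (|l| * B) ≤ η / 4 := by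
    have h : |l| ≤ η / (4 * (T + 1) * (B + 1)) :=
      hl.le.trans ((min_le_right _ _).trans (min_le_right _ _))
    rw [le_div_iff₀ (by positivity)] at h
    have h2 : 0 ≤ |l| * (T + 1) := by positivity
    nlinarith
  have hld : |l| * B ≤ η / 4 := by
    have h2 : 0 ≤ T * (|l| * B) := by positivity
    linarith
  -- the complete metric space
  let Y : Set (BoundedContinuousFunction ℝ V × ℝ) :=
    {p | (∀ s, p.1 (s + 1) = p.1 s) ∧ ‖p‖ ≤ r}
  have hYc : IsClosed Y := by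
    have h1 : IsClosed {p : BoundedContinuousFunction ℝ V × ℝ | ∀ s, p.1 (s + 1) = p.1 s} := by
      have : {p : BoundedContinuousFunction ℝ V × ℝ | ∀ s, p.1 (s + 1) = p.1 s} =
          ⋂ s : ℝ, {p | p.1 (s + 1) = p.1 s} := by
        ext p; simp
      rw [this]
      exact isClosed_iInter fun s => isClosed_eq
        ((continuous_eval_const (s + 1)).comp continuous_fst)
        ((continuous_eval_const s).comp continuous_fst)
    exact h1.inter (isClosed_le continuous_norm continuous_const)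
  have : CompleteSpace Y := hYc.completeSpace_coe
  have h0Y : (0 : BoundedContinuousFunction ℝ V × ℝ) ∈ Y := ⟨fun s => rfl, by simpa using hr0.le⟩
  have : Nonempty Y := ⟨⟨0, h0Y⟩⟩
  have hYw : ∀ p : Y, ∀ s, ‖p.1.1 s‖ ≤ r := fun p s =>
    (p.1.1.norm_coe_le_norm s).trans ((norm_fst_le p.1).trans p.2.2)
  have hYτ : ∀ p : Y, |p.1.2| ≤ r := fun p => (norm_snd_le p.1).trans p.2.2
  let hh : Y → ℝ → V := fun p => NN f g y T l p.1.1 p.1.2
  have hhc : ∀ p, Continuous (hh p) := fun p => NN_continuous hf hg hyc p.1.1.continuous _ _ _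
  have hhp : ∀ p s, hh p (s + 1) = hh p s := fun p s => by
    simp only [hh, NN, hy.per, p.2.1]
  have hLp : ∀ h : ℝ → V, Continuous h → (∀ s, h (s + 1) = h s) → ∀ s,
      Lw Φ Ψ K (f (y 0)) h (s + 1) = Lw Φ Ψ K (f (y 0)) h s := fun h hc hp s =>
    Lw_per hA hAp hΦ hΨ0 hΨ hf0 hK hc hp s
  have hdiff : ∀ p q : Y, ∀ s, ‖hh p s - hh q s‖ ≤
      (T * (1 / (8 * CL * T)) + 2 * r * L + |l| * ((T + 2) * B)) * dist p q := by
    intro p q s
    have hpq : dist p q = ‖p.1 - q.1‖ := by rw [Subtype.dist_eq, dist_eq_norm]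
    have hyR : ‖y s‖ ≤ R := hR s
    have hn1 : ∀ p : Y, ‖y s + p.1.1 s‖ ≤ R + 1 := fun p =>
      (norm_add_le _ _).trans (by linarith [hYw p s])
    refine NN_diff hTp hr1' hr0.le hB0 hL0.le (hYτ p) (hYw q s) ?_ ?_
      (taylor hf (r := r) (fun a v ha hv => hr1 a v ha (hv.trans hrr1)) hyR (hYw p s) (hYw q s))
      (by positivity) ?_ ?_ ?_ (hB _).1
    · rw [hpq]
      exact ((p.1.1 - q.1.1).norm_coe_le_norm s).trans (norm_fst_le (p.1 - q.1))
    · rw [hpq]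
      exact norm_snd_le (p.1 - q.1)
    · have := hL _ _ (hn1 p) (hn1 q)
      rwa [add_sub_add_left_eq_sub] at this
    · have := hL _ _ (hn1 q) (show ‖y s‖ ≤ R + 1 by linarith)
      rwa [add_sub_cancel_left] at this
    · have := hgl (y s + p.1.1 s) (y s + q.1.1 s)
      rwa [add_sub_add_left_eq_sub] at this
  have hdI : ∀ p q : Y, CL * ∫ s in (0 : ℝ)..1, ‖hh p s - hh q s‖ ≤ 1 / 2 * dist p q := by
    intro p q
    have h1 : ∫ s in (0 : ℝ)..1, ‖hh p s - hh q s‖ ≤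
        ∫ _s in (0 : ℝ)..1, (T * (1 / (8 * CL * T)) + 2 * r * L + |l| * ((T + 2) * B)) *
          dist p q :=
      intervalIntegral.integral_mono_on zero_le_one
        (((hhc p).sub (hhc q)).norm.intervalIntegrable _ _) intervalIntegrable_const
        fun s _ => hdiff p q s
    rw [intervalIntegral.integral_const, sub_zero, one_smul] at h1
    have h2 : CL * (T * (1 / (8 * CL * T))) = 1 / 8 := by field_simp
    calc CL * ∫ s in (0 : ℝ)..1, ‖hh p s - hh q s‖ ≤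
        CL * ((T * (1 / (8 * CL * T)) + 2 * r * L + |l| * ((T + 2) * B)) * dist p q) :=
          mul_le_mul_of_nonneg_left h1 hCL0.le
      _ = (CL * (T * (1 / (8 * CL * T))) + CL * (2 * r * L) + CL * (|l| * ((T + 2) * B))) *
          dist p q := by ring
      _ ≤ (1 / 8 + 1 / 8 + 1 / 4) * dist p q := by
          refine mul_le_mul_of_nonneg_right ?_ dist_nonneg
          rw [h2]
          linarith
      _ = 1 / 2 * dist p q := by ring
  -- bound for the image of `0`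
  have hI0 : CL * ∫ s in (0 : ℝ)..1, ‖hh ⟨0, h0Y⟩ s‖ ≤
      CL * T * |l| * ∫ s in (0 : ℝ)..1, ‖g (y s)‖ := by
    have h1 : ∀ s, ‖hh ⟨0, h0Y⟩ s‖ = (T * |l|) * ‖g (y s)‖ := by
      intro s
      have h2 : hh ⟨0, h0Y⟩ s = (T * l) • g (y s) := by
        simp [hh, NN]
      rw [h2, norm_smul, norm_mul, Real.norm_eq_abs, Real.norm_eq_abs, abs_of_pos hTp]
    simp_rw [h1]
    rw [intervalIntegral.integral_const_mul]
    exact le_of_eq (by ring)
  have hIB : ∫ s in (0 : ℝ)..1, ‖g (y s)‖ ≤ B := by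
    have h1 : ∫ s in (0 : ℝ)..1, ‖g (y s)‖ ≤ ∫ _s in (0 : ℝ)..1, B :=
      intervalIntegral.integral_mono_on zero_le_one
        ((hg.continuous.comp hyc).norm.intervalIntegrable _ _) intervalIntegrable_const
        fun s _ => (hB _).1
    simpa using h1
  -- the map
  have hmap : ∀ p : Y, ∃ q : Y, (∀ s, q.1.1 s = Lw Φ Ψ K (f (y 0)) (hh p) s) ∧
      q.1.2 = (kk Φ Ψ K (hh p)).2 := by
    intro p
    obtain ⟨hb1, hb2⟩ := hCL (hh p) (hhc p) (hLp _ (hhc p) (hhp p))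
    have hc : Continuous (Lw Φ Ψ K (f (y 0)) (hh p)) := continuous_iff_continuousAt.mpr
      fun s => (Lw_ode hA hΦ hΨ0 hΨ (hhc p) s).continuousAt
    let q1 : BoundedContinuousFunction ℝ V := BoundedContinuousFunction.ofNormedAddCommGroup
      (Lw Φ Ψ K (f (y 0)) (hh p)) hc _ hb1
    have hI : CL * ∫ s in (0 : ℝ)..1, ‖hh p s‖ ≤ r := by
      have h1 : ∫ s in (0 : ℝ)..1, ‖hh p s‖ ≤
          (∫ s in (0 : ℝ)..1, ‖hh p s - hh ⟨0, h0Y⟩ s‖) +
            ∫ s in (0 : ℝ)..1, ‖hh ⟨0, h0Y⟩ s‖ := by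
        have c1 := hhc p
        have c2 := hhc ⟨0, h0Y⟩
        have i1 : IntervalIntegrable (fun s => ‖hh p s - hh ⟨0, h0Y⟩ s‖) volume 0 1 :=
          (c1.sub c2).norm.intervalIntegrable _ _
        have i2 : IntervalIntegrable (fun s => ‖hh ⟨0, h0Y⟩ s‖) volume 0 1 :=
          c2.norm.intervalIntegrable _ _
        rw [← intervalIntegral.integral_add i1 i2]
        refine intervalIntegral.integral_mono_on zero_le_one
          (c1.norm.intervalIntegrable _ _) (i1.add i2) fun s _ => ?_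
        have := norm_add_le (hh p s - hh ⟨0, h0Y⟩ s) (hh ⟨0, h0Y⟩ s)
        rwa [sub_add_cancel] at this
      have h2 := hdI p ⟨0, h0Y⟩
      have h3 : dist p ⟨0, h0Y⟩ ≤ r := by
        rw [Subtype.dist_eq, dist_zero_right]; exact p.2.2
      have h4 : CL * T * |l| * ∫ s in (0 : ℝ)..1, ‖g (y s)‖ ≤ CL * (T * |l| * B) := by
        calc CL * T * |l| * ∫ s in (0 : ℝ)..1, ‖g (y s)‖ ≤ CL * T * |l| * B :=
              mul_le_mul_of_nonneg_left hIB (by positivity)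
          _ = CL * (T * |l| * B) := by ring
      have h5 := mul_le_mul_of_nonneg_left h1 hCL0.le
      rw [mul_add] at h5
      linarith
    refine ⟨⟨(q1, (kk Φ Ψ K (hh p)).2), fun s => hLp _ (hhc p) (hhp p) s, ?_⟩,
      fun s => rfl, rfl⟩
    rw [Prod.norm_def]
    refine max_le ?_ (hb2.trans hI)
    refine (BoundedContinuousFunction.norm_le hr0.le).mpr fun s => (hb1 s).trans hI
  choose 𝒯 h𝒯1 h𝒯2 using hmap
  have hcon : ContractingWith (1 / 2 : NNReal) 𝒯 := by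
    refine ⟨by rw [← NNReal.coe_lt_coe]; norm_num, LipschitzWith.of_dist_le_mul fun p q => ?_⟩
    have hc := (hhc p).sub (hhc q)
    have hper : ∀ s, (fun s => hh p s - hh q s) (s + 1) = (fun s => hh p s - hh q s) s :=
      fun s => by simp only [hhp]
    obtain ⟨hb1, hb2⟩ := hCL (fun s => hh p s - hh q s) hc (hLp _ hc hper)
    have hpq := hdI p q
    have e12 : ((1 / 2 : NNReal) : ℝ) = 1 / 2 := by norm_num
    rw [Subtype.dist_eq, Prod.dist_eq, e12]
    refine max_le ?_ ?_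
    · refine (BoundedContinuousFunction.dist_le (by positivity)).mpr fun s => ?_
      rw [h𝒯1, h𝒯1, dist_eq_norm, ← Lw_sub hΨc (hhc p) (hhc q)]
      exact (hb1 s).trans hpq
    · rw [h𝒯2, h𝒯2, Real.dist_eq]
      have h1 := kk_sub (Φ := Φ) (K := K) hΨc (hhc p) (hhc q)
      have h2 : (kk Φ Ψ K (hh p)).2 - (kk Φ Ψ K (hh q)).2 =
          (kk Φ Ψ K (fun s => hh p s - hh q s)).2 := by rw [h1]; rfl
      rw [h2]
      exact hb2.trans hpq
  set P := ContractingWith.fixedPoint 𝒯 hcon with hP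
  have hfix : 𝒯 P = P := hcon.fixedPoint_isFixedPt
  have hPw : ∀ s, P.1.1 s = Lw Φ Ψ K (f (y 0)) (hh P) s := fun s => by
    have := h𝒯1 P s
    rwa [hfix] at this
  have hPτ : P.1.2 = (kk Φ Ψ K (hh P)).2 := by
    have := h𝒯2 P
    rwa [hfix] at this
  have hPn : ‖P.1‖ ≤ 2 * CL * T * |l| * ∫ s in (0 : ℝ)..1, ‖g (y s)‖ := by
    have h1 := hcon.dist_fixedPoint_le ⟨0, h0Y⟩
    rw [← hP] at h1
    have h2 : dist (⟨0, h0Y⟩ : Y) P = ‖P.1‖ := by
      rw [Subtype.dist_eq, dist_zero_left]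
    obtain ⟨hb1, hb2⟩ := hCL (hh ⟨0, h0Y⟩) (hhc _) (hLp _ (hhc _) (hhp _))
    have h3 : dist (⟨0, h0Y⟩ : Y) (𝒯 ⟨0, h0Y⟩) ≤ CL * ∫ s in (0 : ℝ)..1, ‖hh ⟨0, h0Y⟩ s‖ := by
      rw [Subtype.dist_eq, dist_zero_left, Prod.norm_def]
      have h4 : 0 ≤ CL * ∫ s in (0 : ℝ)..1, ‖hh ⟨0, h0Y⟩ s‖ :=
        mul_nonneg hCL0.le (intervalIntegral.integral_nonneg zero_le_one fun _ _ => norm_nonneg _)
      refine max_le ?_ ?_
      · refine (BoundedContinuousFunction.norm_le h4).mpr fun s => ?_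
        rw [h𝒯1]; exact hb1 s
      · rw [h𝒯2]; exact hb2
    have e12 : (1 - ((1 / 2 : NNReal) : ℝ)) = 1 / 2 := by norm_num
    rw [h2, e12] at h1
    have h5 := h3.trans hI0
    calc ‖P.1‖ ≤ dist (⟨0, h0Y⟩ : Y) (𝒯 ⟨0, h0Y⟩) / (1 / 2) := h1
      _ = 2 * dist (⟨0, h0Y⟩ : Y) (𝒯 ⟨0, h0Y⟩) := by ring
      _ ≤ 2 * (CL * T * |l| * ∫ s in (0 : ℝ)..1, ‖g (y s)‖) := by linarith
      _ = _ := by ring
  have hPs : ∀ s, ‖P.1.1 s‖ ≤ ‖P.1‖ := fun s =>
    (P.1.1.norm_coe_le_norm s).trans (norm_fst_le P.1)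
  have hτr := abs_le.mp (hYτ P)
  -- the new orbit
  have hode : ∀ s, HasDerivAt (fun s => y s + P.1.1 s)
      ((T + P.1.2) • (f (y s + P.1.1 s) + l • g (y s + P.1.1 s))) s := by
    intro s
    have h1 := Lw_ode (K := K) (f0 := f (y 0)) hA hΦ hΨ0 hΨ (hhc P) s
    have h2 : HasDerivAt (fun s => P.1.1 s) (T • (fderiv ℝ f (y s)) (P.1.1 s) +
        P.1.2 • f (y s) + hh P s) s := by
      have e : (fun s => P.1.1 s) = Lw Φ Ψ K (f (y 0)) (hh P) := funext hPw
      rw [e]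
      refine h1.congr_deriv ?_
      rw [hff, ← hPτ, hPw s]
      rfl
    refine ((hy.ode s).fun_add h2).congr_deriv ?_
    simp only [hh, NN]
    module
  have hfd : ∀ z, fderiv ℝ (fun z => f z + l • g z) z = fderiv ℝ f z + l • fderiv ℝ g z :=
    fun z => by
      have h1 := ((hf.differentiable one_ne_zero) z).hasFDerivAt.fun_add
        (((hg.differentiable one_ne_zero) z).hasFDerivAt.fun_const_smul l)
      exact h1.fderiv
  refine ⟨fun s => y s + P.1.1 s, T + P.1.2, ⟨by linarith, hode, fun s => ?_⟩, ?_, ?_, ?_, ?_⟩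
  · simp only [hy.per, P.2.1]
  · have hyc' : Continuous fun s => y s + P.1.1 s := hyc.add P.1.1.continuous
    refine hη _ _ _ ?_ (fun s => ?_) ?_
    · simp_rw [hfd]
      have c1 : Continuous fun s => fderiv ℝ f (y s + P.1.1 s) :=
        (hf.continuous_fderiv one_ne_zero).comp hyc'
      have c2 : Continuous fun s => fderiv ℝ g (y s + P.1.1 s) :=
        (hg.continuous_fderiv one_ne_zero).comp hyc'
      fun_prop
    · rw [hfd]
      have e : (T + P.1.2) • (fderiv ℝ f (y s + P.1.1 s) + l • fderiv ℝ g (y s + P.1.1 s)) -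
          T • fderiv ℝ f (y s) =
          (T + P.1.2) • (fderiv ℝ f (y s + P.1.1 s) - fderiv ℝ f (y s)) +
          P.1.2 • fderiv ℝ f (y s) + (T + P.1.2) • (l • fderiv ℝ g (y s + P.1.1 s)) := by
        module
      rw [e]
      have hT1 : |T + P.1.2| ≤ T + 1 := by
        rw [abs_le]; constructor <;> linarith
      have b1 : ‖(T + P.1.2) • (fderiv ℝ f (y s + P.1.1 s) - fderiv ℝ f (y s))‖ ≤ η / 4 := by
        rw [norm_smul]
        calc ‖T + P.1.2‖ * ‖fderiv ℝ f (y s + P.1.1 s) - fderiv ℝ f (y s)‖ ≤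
            (T + 1) * (η / (4 * (T + 1))) := mul_le_mul hT1
              (hr2 (y s) _ (hR s) ((hYw P s).trans hrr2)) (norm_nonneg _) (by positivity)
          _ = η / 4 := by field_simp
      have b2 : ‖P.1.2 • fderiv ℝ f (y s)‖ ≤ η / 4 := by
        rw [norm_smul]
        exact (mul_le_mul (hYτ P) (hbf s) (norm_nonneg _) hr0.le).trans hrb
      have b3 : ‖(T + P.1.2) • (l • fderiv ℝ g (y s + P.1.1 s))‖ ≤ η / 4 := by
        rw [norm_smul, norm_smul]
        exact (mul_le_mul hT1 (mul_le_mul_of_nonneg_left (hB _).2 (norm_nonneg _))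
          (by positivity) (by positivity)).trans hlc
      refine (norm_add_le _ _).trans ((add_le_add ((norm_add_le _ _).trans
        (add_le_add b1 b2)) b3).trans ?_)
      linarith
    · have b1 : ‖f (y 0 + P.1.1 0) - f (y 0)‖ ≤ η / 2 := by
        have := hL (y 0 + P.1.1 0) (y 0) ((norm_add_le _ _).trans (by linarith [hYw P 0, hR 0]))
          (by linarith [hR 0])
        rw [add_sub_cancel_left] at this
        refine this.trans ((mul_le_mul_of_nonneg_left (hYw P 0) hL0.le).trans ?_)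
        linarith
      have b2 : ‖l • g (y 0 + P.1.1 0)‖ ≤ η / 4 := by
        rw [norm_smul]
        exact (mul_le_mul_of_nonneg_left (hB _).1 (norm_nonneg _)).trans hld
      have e : f (y 0 + P.1.1 0) + l • g (y 0 + P.1.1 0) - f (y 0) =
          (f (y 0 + P.1.1 0) - f (y 0)) + l • g (y 0 + P.1.1 0) := by abel
      rw [e]
      refine (norm_add_le _ _).trans ((add_le_add b1 b2).trans ?_)
      linarith
  · rw [add_sub_cancel_left]
    exact lt_of_le_of_lt (hYτ P) (by linarith)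
  · intro s
    rw [add_sub_cancel_left]
    exact lt_of_le_of_lt (hYw P s) (by linarith)
  · intro s
    rw [add_sub_cancel_left]
    exact (hPs s).trans hPn

end Pool.Agent.V1185.Persist
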