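import Mathlib
import Pool.Agent.V1185.Persist

/-!
# Simple Floquet multiplier one implies non-degeneracy
-/

namespace Pool.Agent.V1185.Persist

open Set Filter Topology MeasureTheory
open Pool.Agent.W795

variable {V : Type*} [NormedAddCommGroup V] [NormedSpace ℝ V] [FiniteDimensional ℝ V]

lemma Orb.f_ne {f : V → V} (hf : ContDiff ℝ 1 f) {y : ℝ → V} {T : ℝ} (h : Orb f y T)
    {s₁ : ℝ} (hs : y s₁ ≠ y 0) : f (y 0) ≠ 0 := by
  intro h0
  have hA : Continuous fun s => T • fderiv ℝ f (y s) :=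
    (((hf.continuous_fderiv one_ne_zero).comp h.continuous).const_smul T)
  obtain ⟨Φ, hΦ⟩ := exists_fund hA
  have h1 : ∀ s, HasDerivAt y 0 s := fun s => by
    refine (h.ode s).congr_deriv ?_
    rw [← fund_apply_f hf h hΦ s, h0, map_zero, smul_zero]
  exact hs (is_const_of_deriv_eq_zero (fun s => (h1 s).differentiableAt)
    (fun s => (h1 s).deriv) s₁ 0)

lemma nondeg_of_simple {f : V → V} (hf : ContDiff ℝ 1 f) {y : ℝ → V} {T : ℝ} (h : Orb f y T)
    (hne : f (y 0) ≠ 0) (M : V →ₗ[ℝ] V)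
    (hM : ∀ v, ∃ ξ : ℝ → V, ξ 0 = v ∧
      (∀ s, HasDerivAt ξ (T • fderiv ℝ f (y s) (ξ s)) s) ∧ ξ 1 = M v)
    (hroot : (M.charpoly.map (algebraMap ℝ ℂ)).rootMultiplicity 1 = 1) : Nondeg f y T := by
  have hA : Continuous fun s => T • fderiv ℝ f (y s) :=
    (((hf.continuous_fderiv one_ne_zero).comp h.continuous).const_smul T)
  obtain ⟨Φ, hΦ⟩ := exists_fund hA
  have hMΦ : ∀ v, Φ 1 v = M v := by
    intro v
    obtain ⟨ξ, h0, hξ, h1⟩ := hM v
    have h2 : ∀ s, HasDerivAt (fun s => Φ s v) ((T • fderiv ℝ f (y s)) (Φ s v)) s := by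
      intro s
      have := (hΦ.2 s).clm_apply (hasDerivAt_const s v)
      simpa using this
    have h3 : ∀ s, HasDerivAt ξ ((T • fderiv ℝ f (y s)) (ξ s)) s := hξ
    have h4 := linear_unique hA h2 h3 (by simp [hΦ.1, h0])
    rw [← h1, ← h4]
  have hf0 : M (f (y 0)) = f (y 0) := by
    rw [← hMΦ, fund_apply_f hf h hΦ 1]
    have := h.per 0
    rw [zero_add] at this
    rw [this]
  have hfin : Module.finrank ℝ (Module.End.maxGenEigenspace M 1) = 1 := by
    rw [LinearMap.finrank_maxGenEigenspace_eq]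
    rw [Polynomial.eq_rootMultiplicity_map (algebraMap ℝ ℂ).injective (1 : ℝ), map_one]
    exact hroot
  have hmem : ∀ v, M v - v = 0 → v ∈ Module.End.maxGenEigenspace M 1 := by
    intro v hv
    rw [Module.End.mem_maxGenEigenspace]
    exact ⟨1, by simpa using hv⟩
  have hmem2 : ∀ v, M (M v - v) - (M v - v) = 0 → v ∈ Module.End.maxGenEigenspace M 1 := by
    intro v hv
    rw [Module.End.mem_maxGenEigenspace]
    refine ⟨2, ?_⟩
    rw [pow_two, one_smul]
    exact hv
  have hspan : ∀ v ∈ Module.End.maxGenEigenspace M 1, ∃ c : ℝ, c • f (y 0) = v := by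
    intro v hv
    have h1 : f (y 0) ∈ Module.End.maxGenEigenspace M 1 := hmem _ (by rw [hf0, sub_self])
    have h2 := (finrank_eq_one_iff_of_nonzero' (⟨f (y 0), h1⟩ : Module.End.maxGenEigenspace M 1)
      (fun hh => hne (congrArg Subtype.val hh))).mp hfin ⟨v, hv⟩
    obtain ⟨c, hc⟩ := h2
    exact ⟨c, congrArg Subtype.val hc⟩
  let S : V × ℝ →ₗ[ℝ] V :=
    (M - LinearMap.id).comp (LinearMap.fst ℝ V ℝ) +
      (LinearMap.snd ℝ V ℝ).smulRight (f (y 0))
  have hS : ∀ p : V × ℝ, S p = M p.1 - p.1 + p.2 • f (y 0) := fun p => by simp [S]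
  have hker : LinearMap.ker S ≤ Submodule.span ℝ {((f (y 0), 0) : V × ℝ)} := by
    intro p hp
    rw [LinearMap.mem_ker, hS] at hp
    have h1 : M p.1 - p.1 = -(p.2 • f (y 0)) := eq_neg_of_add_eq_zero_left hp
    have h2 : M (M p.1 - p.1) - (M p.1 - p.1) = 0 := by
      rw [h1, map_neg, map_smul, hf0, sub_self]
    obtain ⟨c, hc⟩ := hspan _ (hmem2 _ h2)
    have h3 : M p.1 - p.1 = 0 := by
      rw [← hc, map_smul, hf0, sub_self]
    have h4 : p.2 = 0 := by
      rw [h3, zero_add] at hp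
      exact (smul_eq_zero.mp hp).resolve_right hne
    rw [Submodule.mem_span_singleton]
    refine ⟨c, ?_⟩
    ext
    · simpa using hc
    · simp [h4]
  have hk1 : Module.finrank ℝ (LinearMap.ker S) ≤ 1 :=
    by
    refine (Submodule.finrank_mono hker).trans ?_
    exact (finrank_span_singleton fun hh => hne (congrArg Prod.fst hh)).le
  have hr := S.finrank_range_add_finrank_ker
  rw [Module.finrank_prod, Module.finrank_self] at hr
  have htop : LinearMap.range S = ⊤ := by
    apply Submodule.eq_top_of_finrank_eq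
    have h1 := Submodule.finrank_le (LinearMap.range S)
    omega
  refine ⟨Φ, hΦ, fun v => ?_⟩
  have : v ∈ LinearMap.range S := by rw [htop]; trivial
  obtain ⟨p, hp⟩ := this
  refine ⟨p.1, p.2, ?_⟩
  rw [hMΦ, ← hS, hp]

end Pool.Agent.V1185.Persist
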