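import Mathlib

/-!
# Analytic tools for the rigid synchrony argument
-/

namespace Pool.Agent.V1185.JumpTools

open Set Filter Topology MeasureTheory

/-- The jump inequality. -/
lemma jump_ineq {V W : Type*} [NormedAddCommGroup V] [NormedSpace ℝ V] [NormedAddCommGroup W]
    [NormedSpace ℝ W] {f g : V → V} {x : V} {ℓ : V →L[ℝ] W} {C L I : ℝ} (hL0 : 0 ≤ L)
    (hL : ∀ z, ‖z - x‖ ≤ 1 → ‖f z - f x‖ ≤ L * ‖z - x‖) (hg : Continuous g)
    (h0 : ℓ (f x) = 0)
    (H : ∀ ρ : ℝ, 0 < ρ → ∃ l : ℝ, l ≠ 0 ∧ ∃ z, ‖z - x‖ ≤ C * |l| * I ∧ ‖z - x‖ < ρ ∧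
      ℓ (f z + l • g z) = 0) :
    ‖ℓ (g x)‖ ≤ ‖ℓ‖ * (L * (C * I)) := by
  refine le_of_forall_pos_le_add fun ε hε => ?_
  have hc : Continuous fun z => ℓ (g z) := ℓ.continuous.comp hg
  obtain ⟨ρ, hρ, hρ'⟩ := Metric.continuous_iff.mp hc x ε hε
  obtain ⟨l, hl, z, hz1, hz2, hz3⟩ := H (min ρ 1) (by positivity)
  have hz4 : ‖z - x‖ ≤ 1 := (hz2.trans_le (min_le_right _ _)).le
  have h1 := hρ' z (by rw [dist_eq_norm]; exact hz2.trans_le (min_le_left _ _))
  rw [dist_eq_norm] at h1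
  have h2 : l • ℓ (g z) = -ℓ (f z - f x) := by
    rw [map_sub, h0, sub_zero]
    rw [map_add, map_smul] at hz3
    exact eq_neg_of_add_eq_zero_right hz3
  have h3 : |l| * ‖ℓ (g z)‖ ≤ |l| * (‖ℓ‖ * (L * (C * I))) := by
    have h4 : |l| * ‖ℓ (g z)‖ = ‖l • ℓ (g z)‖ := by rw [norm_smul, Real.norm_eq_abs]
    rw [h4, h2, norm_neg]
    calc ‖ℓ (f z - f x)‖ ≤ ‖ℓ‖ * ‖f z - f x‖ := ℓ.le_opNorm _
      _ ≤ ‖ℓ‖ * (L * (C * |l| * I)) := by
          refine mul_le_mul_of_nonneg_left ?_ (norm_nonneg _)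
          exact (hL z hz4).trans (mul_le_mul_of_nonneg_left hz1 hL0)
      _ = |l| * (‖ℓ‖ * (L * (C * I))) := by ring
  have h5 : ‖ℓ (g z)‖ ≤ ‖ℓ‖ * (L * (C * I)) := le_of_mul_le_mul_left h3 (abs_pos.mpr hl)
  have h6 : ‖ℓ (g x)‖ ≤ ‖ℓ (g z)‖ + ‖ℓ (g z) - ℓ (g x)‖ := by
    have := norm_sub_norm_le (ℓ (g x)) (ℓ (g z))
    rw [norm_sub_rev] at this
    linarith
  linarith

/-- A curve with non-zero continuous derivative is locally injective. -/
lemma exists_injOn {W : Type*} [NormedAddCommGroup W] [NormedSpace ℝ W] {y d : ℝ → W} {s₀ : ℝ}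
    (hy : ∀ s, HasDerivAt y (d s) s) (hd : Continuous d) (h0 : d s₀ ≠ 0) :
    ∃ ρ, 0 < ρ ∧ InjOn y (Ioo (s₀ - ρ) (s₀ + ρ)) := by
  obtain ⟨u, _, hu⟩ := exists_dual_vector ℝ (d s₀) (norm_ne_zero_iff.mpr h0)
  have hpos : 0 < u (d s₀) := by
    rw [hu]; simpa using h0
  have hc : Continuous fun s => u (d s) := u.continuous.comp hd
  have hev : ∀ᶠ s in 𝓝 s₀, 0 < u (d s) := hc.continuousAt.eventually (lt_mem_nhds hpos)
  obtain ⟨ρ, hρ, hρ'⟩ := Metric.eventually_nhds_iff_ball.mp hev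
  refine ⟨ρ, hρ, ?_⟩
  have hder : ∀ s, HasDerivAt (fun s => u (y s)) (u (d s)) s := fun s =>
    u.hasFDerivAt.comp_hasDerivAt s (hy s)
  have hmono : StrictMonoOn (fun s => u (y s)) (Ioo (s₀ - ρ) (s₀ + ρ)) := by
    refine strictMonoOn_of_deriv_pos (convex_Ioo _ _)
      (fun s _ => (hder s).continuousAt.continuousWithinAt) fun s hs => ?_
    rw [interior_Ioo] at hs
    rw [(hder s).deriv]
    exact hρ' s (by rw [Real.ball_eq_Ioo]; exact hs)
  intro a ha b hb hab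
  exact hmono.injOn ha hb (by simp only [hab])

/-- Tonelli: for almost every `s` the curve `φ` meets `ψ s` in a null set of times. -/
lemma ae_ae_ne {X : Type*} [TopologicalSpace X] [T2Space X] {φ ψ : ℝ → X} (hφ : Continuous φ)
    (hψ : Continuous ψ) {J : Set ℝ} (hinj : InjOn ψ J) :
    ∀ᵐ s ∂(volume.restrict J), ∀ᵐ r ∂(volume.restrict (Ioc (0 : ℝ) 1)), φ r ≠ ψ s := by
  set μ := (volume : Measure ℝ).restrict (Ioc (0 : ℝ) 1)
  set ν := (volume : Measure ℝ).restrict J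
  have hΩ : MeasurableSet {p : ℝ × ℝ | φ p.1 = ψ p.2} :=
    (isClosed_eq (hφ.comp continuous_fst) (hψ.comp continuous_snd)).measurableSet
  have h1 : (μ.prod ν) {p : ℝ × ℝ | φ p.1 = ψ p.2} = 0 := by
    rw [Measure.prod_apply hΩ, lintegral_eq_zero_iff (measurable_measure_prodMk_left hΩ)]
    refine Eventually.of_forall fun r => ?_
    have h2 : (Prod.mk r ⁻¹' {p : ℝ × ℝ | φ p.1 = ψ p.2}) = {s | φ r = ψ s} := rfl
    simp only [h2, Pi.zero_apply]
    have h3 : MeasurableSet {s | φ r = ψ s} :=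
      (isClosed_eq continuous_const hψ).measurableSet
    rw [Measure.restrict_apply h3]
    refine Set.Subsingleton.measure_zero (fun a ha b hb => ?_) _
    exact hinj ha.2 hb.2 (ha.1.symm.trans hb.1)
  rw [Measure.prod_apply_symm hΩ, lintegral_eq_zero_iff (measurable_measure_prodMk_right hΩ)]
    at h1
  filter_upwards [h1] with s hs
  rw [ae_iff]
  simp only [ne_eq, not_not]
  exact hs

/-- Sequences of functions vanishing eventually at almost every point have small integral. -/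
lemma exists_small_integral {h : ℕ → ℝ → ℝ} {B : ℝ} (hc : ∀ n, Continuous (h n))
    (hB : ∀ n r, ‖h n r‖ ≤ B)
    (h0 : ∀ᵐ r ∂(volume.restrict (Ioc (0 : ℝ) 1)), ∀ᶠ n in atTop, h n r = 0)
    {ε : ℝ} (hε : 0 < ε) : ∀ᶠ n in atTop, ∫ r in (0 : ℝ)..1, h n r < ε := by
  have ht : Tendsto (fun n => ∫ r in (0 : ℝ)..1, h n r) atTop (𝓝 (∫ _r in (0 : ℝ)..1, (0 : ℝ))) := by
    refine intervalIntegral.tendsto_integral_filter_of_dominated_convergence (fun _ => B)
      (Eventually.of_forall fun n => (hc n).aestronglyMeasurable)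
      (Eventually.of_forall fun n => Eventually.of_forall fun r _ => hB n r)
      intervalIntegrable_const ?_
    rw [ae_restrict_iff' measurableSet_Ioc] at h0
    filter_upwards [h0] with r hr hr'
    rw [uIoc_of_le zero_le_one] at hr'
    exact tendsto_const_nhds.congr' ((hr hr').mono fun n hn => hn.symm)
  rw [intervalIntegral.integral_zero] at ht
  exact ht.eventually (gt_mem_nhds hε)

end Pool.Agent.V1185.JumpTools
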