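import Mathlib

/-!
# Finite sums of scalar functions of linear maps times constant vectors
-/

namespace Pool.Agent.V1185.SumField

open Set

lemma sum_field {V ι : Type*} [NormedAddCommGroup V] [NormedSpace ℝ V] [Fintype ι]
    {Q : ι → Type*} [∀ i, NormedAddCommGroup (Q i)] [∀ i, NormedSpace ℝ (Q i)]
    (Θ : ∀ i, Q i → ℝ) (L : ∀ i, V →L[ℝ] Q i) (s : ι → V)
    (hΘ : ∀ i, ContDiff ℝ 1 (Θ i)) (B : ι → ℝ) (hB0 : ∀ i, 0 ≤ B i)
    (hB : ∀ i q, ‖fderiv ℝ (Θ i) q‖ ≤ B i) (h01 : ∀ i q, ‖Θ i q‖ ≤ 1) :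
    ContDiff ℝ 1 (fun x => ∑ i, Θ i (L i x) • s i) ∧
      ∃ B' : ℝ, ∀ z, ‖∑ i, Θ i (L i z) • s i‖ ≤ B' ∧
        ‖fderiv ℝ (fun x => ∑ i, Θ i (L i x) • s i) z‖ ≤ B' := by
  have hc : ∀ i, ContDiff ℝ 1 (fun x => Θ i (L i x)) := fun i =>
    (hΘ i).comp (L i).contDiff
  refine ⟨ContDiff.sum fun i _ => (hc i).smul contDiff_const, (∑ i, ‖s i‖) +
    ∑ i, B i * ‖L i‖ * ‖s i‖, fun z => ⟨?_, ?_⟩⟩
  · have h1 : ‖∑ i, Θ i (L i z) • s i‖ ≤ ∑ i, ‖s i‖ := by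
      refine (norm_sum_le _ _).trans (Finset.sum_le_sum fun i _ => ?_)
      rw [norm_smul]
      exact mul_le_of_le_one_left (norm_nonneg _) (h01 i _)
    have h2 : 0 ≤ ∑ i, B i * ‖L i‖ * ‖s i‖ :=
      Finset.sum_nonneg fun i _ => mul_nonneg (mul_nonneg (hB0 i) (norm_nonneg _))
        (norm_nonneg _)
    linarith
  · have hd : HasFDerivAt (fun x => ∑ i, Θ i (L i x) • s i)
        (∑ i, ((fderiv ℝ (Θ i) (L i z)).comp (L i)).smulRight (s i)) z := by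
      refine HasFDerivAt.fun_sum fun i _ => ?_
      have h3 : HasFDerivAt (fun x => Θ i (L i x)) ((fderiv ℝ (Θ i) (L i z)).comp (L i)) z :=
        (((hΘ i).differentiable one_ne_zero) (L i z)).hasFDerivAt.comp z (L i).hasFDerivAt
      exact h3.smul_const (s i)
    rw [hd.fderiv]
    have h1 : ‖∑ i, ((fderiv ℝ (Θ i) (L i z)).comp (L i)).smulRight (s i)‖ ≤
        ∑ i, B i * ‖L i‖ * ‖s i‖ := by
      refine (norm_sum_le _ _).trans (Finset.sum_le_sum fun i _ => ?_)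
      rw [ContinuousLinearMap.norm_smulRight_apply]
      refine mul_le_mul_of_nonneg_right ?_ (norm_nonneg _)
      exact (ContinuousLinearMap.opNorm_comp_le _ _).trans
        (mul_le_mul_of_nonneg_right (hB i _) (norm_nonneg _))
    have h2 : 0 ≤ ∑ i, ‖s i‖ := Finset.sum_nonneg fun i _ => norm_nonneg _
    linarith

lemma exists_bump {Q : Type*} [NormedAddCommGroup Q] [NormedSpace ℝ Q] [FiniteDimensional ℝ Q]
    (p : Q) {δ : ℝ} (hδ : 0 < δ) : ∃ b : Q → ℝ, ContDiff ℝ 1 b ∧ (∀ q, 0 ≤ b q ∧ b q ≤ 1) ∧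
      b p = 1 ∧ ∀ q, δ ≤ ‖q - p‖ → b q = 0 := by
  let b : ContDiffBump p := ⟨δ / 2, δ, by positivity, by linarith⟩
  refine ⟨b, b.contDiff, fun q => ⟨b.nonneg, b.le_one⟩,
    b.one_of_mem_closedBall (Metric.mem_closedBall_self (by positivity)), fun q hq => ?_⟩
  exact b.zero_of_le_dist (by rwa [dist_eq_norm])

/-- Symmetrised bump: `1 - ∏ (1 - b ∘ Lβ)`. -/
lemma symm_bump {Q Q' κ : Type*} [NormedAddCommGroup Q] [NormedSpace ℝ Q] [Fintype κ]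
    [FiniteDimensional ℝ Q] [NormedAddCommGroup Q'] [NormedSpace ℝ Q']
    (p : Q') {δ : ℝ} (b : Q' → ℝ) (hb : ContDiff ℝ 1 b)
    (hb01 : ∀ q, 0 ≤ b q ∧ b q ≤ 1) (hb0 : ∀ q, δ ≤ ‖q - p‖ → b q = 0)
    (L : κ → Q →L[ℝ] Q') (hL : ∀ k q, ‖q‖ ≤ ‖L k q‖) :
    ContDiff ℝ 1 (fun q => 1 - ∏ k, (1 - b (L k q))) ∧
    (∀ q, 0 ≤ 1 - ∏ k, (1 - b (L k q)) ∧ 1 - ∏ k, (1 - b (L k q)) ≤ 1) ∧
    ∃ B : ℝ, 0 ≤ B ∧ ∀ q, ‖fderiv ℝ (fun q => 1 - ∏ k, (1 - b (L k q))) q‖ ≤ B := by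
  have h1 : ContDiff ℝ 1 (fun q => 1 - ∏ k, (1 - b (L k q))) := by
    refine contDiff_const.sub (contDiff_prod fun k _ => contDiff_const.sub ?_)
    exact hb.comp (L k).contDiff
  have hprod : ∀ q, 0 ≤ ∏ k, (1 - b (L k q)) ∧ ∏ k, (1 - b (L k q)) ≤ 1 := by
    intro q
    constructor
    · exact Finset.prod_nonneg fun k _ => by linarith [(hb01 (L k q)).2]
    · exact Finset.prod_le_one (fun k _ => by linarith [(hb01 (L k q)).2])
        fun k _ => by linarith [(hb01 (L k q)).1]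
  refine ⟨h1, fun q => ⟨by linarith [(hprod q).2], by linarith [(hprod q).1]⟩, ?_⟩
  have hc : HasCompactSupport (fun q => 1 - ∏ k, (1 - b (L k q))) := by
    refine HasCompactSupport.intro (isCompact_closedBall (0 : Q) (‖p‖ + δ)) ?_
    intro q hq
    rw [mem_closedBall_zero_iff, not_le] at hq
    have : ∀ k, b (L k q) = 0 := by
      intro k
      refine hb0 _ ?_
      have h1 := hL k q
      have h2 := norm_sub_norm_le (L k q) p
      linarith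
    simp [this]
  have h2 := hc.fderiv (𝕜 := ℝ)
  have h3 := h1.continuous_fderiv one_ne_zero
  obtain ⟨B, hB⟩ := h3.bounded_above_of_compact_support h2
  exact ⟨B, (norm_nonneg _).trans (hB 0), hB⟩

end Pool.Agent.V1185.SumField
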