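import Mathlib

/-!
Solutions of `e'' = G(t, e)` on `[T, ∞)` with `e → 0`, when `G` is integrable enough at infinity.
-/

namespace Pool.Agent.V1185.AtInfinity

open Set Filter Topology MeasureTheory
open scoped BoundedContinuousFunction

section basics

lemma mul_rpow_aux (s : ℝ) (hs : 0 < s) : s * s ^ (-(5 / 2) : ℝ) = s ^ (-(3 / 2) : ℝ) := by
  nth_rewrite 1 [← Real.rpow_one s]
  rw [← Real.rpow_add hs]
  norm_num

lemma integrableOn_dom {E : Type*} [NormedAddCommGroup E] {f : ℝ → E} {T A a : ℝ} (hT : 1 ≤ T)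
    (ha : a < -1) (hf : Continuous f)
    (hb : ∀ s, T ≤ s → ‖f s‖ ≤ A * s ^ a) {t : ℝ} (ht : T ≤ t) : IntegrableOn f (Ioi t) := by
  have hg : IntegrableOn (fun s : ℝ => A * s ^ a) (Ioi t) :=
    (integrableOn_Ioi_rpow_of_lt ha (by linarith)).const_mul A
  refine Integrable.mono' hg hf.aestronglyMeasurable ?_
  filter_upwards [ae_restrict_mem measurableSet_Ioi] with s hs
  exact hb s (ht.trans (mem_Ioi.mp hs).le)

variable {E : Type*} [NormedAddCommGroup E] [NormedSpace ℝ E]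

lemma norm_smul_le_aux {h : ℝ → E} {T A : ℝ} (hT : 1 ≤ T)
    (hb : ∀ s, T ≤ s → ‖h s‖ ≤ A * s ^ (-(5 / 2) : ℝ)) {c s : ℝ} (hs : T ≤ s) (hc0 : 0 ≤ c)
    (hc : c ≤ s) : ‖c • h s‖ ≤ A * s ^ (-(3 / 2) : ℝ) := by
  have hs0 : 0 < s := by linarith
  rw [norm_smul, Real.norm_of_nonneg hc0]
  calc c * ‖h s‖ ≤ s * (A * s ^ (-(5 / 2) : ℝ)) :=
        mul_le_mul hc (hb s hs) (norm_nonneg _) hs0.le
    _ = A * (s * s ^ (-(5 / 2) : ℝ)) := by ring
    _ = A * s ^ (-(3 / 2) : ℝ) := by rw [mul_rpow_aux s hs0]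

lemma integrableOn_smul {h : ℝ → E} {T A : ℝ} (hT : 1 ≤ T) (hc : Continuous h)
    (hb : ∀ s, T ≤ s → ‖h s‖ ≤ A * s ^ (-(5 / 2) : ℝ)) {t : ℝ} (ht : T ≤ t) :
    IntegrableOn (fun s : ℝ => s • h s) (Ioi t) := by
  have hsm : Continuous (fun s : ℝ => s • h s) := continuous_id.smul hc
  exact integrableOn_dom hT (a := -(3 / 2)) (by norm_num) hsm
    (fun s hs => norm_smul_le_aux hT hb hs (by linarith) le_rfl) ht

lemma tail_hasDerivAt [CompleteSpace E] {f : ℝ → E} {T : ℝ} (hf : Continuous f)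
    (hint : IntegrableOn f (Ioi T)) (t : ℝ) :
    HasDerivAt (fun t => ∫ s in Ioi t, f s) (-f t) t := by
  have heq : (fun t => ∫ s in Ioi t, f s) = fun t => (∫ s in Ioi T, f s) - ∫ s in T..t, f s := by
    funext u
    have hint' : IntegrableOn f (Ioi u) := by
      rcases le_total T u with h | h
      · exact hint.mono_set (Ioi_subset_Ioi h)
      · rw [← Ioc_union_Ioi_eq_Ioi h]
        exact IntegrableOn.union ((hf.integrableOn_Icc).mono_set Ioc_subset_Icc_self) hint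
    rw [← intervalIntegral.integral_interval_add_Ioi hint hint']
    abel
  rw [heq]
  have h1 := intervalIntegral.integral_hasDerivAt_right (hf.intervalIntegrable T t)
    (hf.stronglyMeasurableAtFilter _ _) hf.continuousAt
  have h2 := (hasDerivAt_const t (∫ s in Ioi T, f s)).sub h1
  rw [zero_sub] at h2
  exact h2

/-- The double tail integral. -/
noncomputable def dtail (h : ℝ → E) (t : ℝ) : E := ∫ s in Ioi t, (s - t) • h s

lemma dtail_eq [CompleteSpace E] {h : ℝ → E} {T A : ℝ} (hT : 1 ≤ T) (hc : Continuous h)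
    (hb : ∀ s, T ≤ s → ‖h s‖ ≤ A * s ^ (-(5 / 2) : ℝ)) {t : ℝ} (ht : T ≤ t) :
    dtail h t = (∫ s in Ioi t, s • h s) - t • ∫ s in Ioi t, h s := by
  have h1 := integrableOn_smul hT hc hb ht
  have h0 : IntegrableOn h (Ioi t) := integrableOn_dom hT (by norm_num) hc hb ht
  have h2 : IntegrableOn (fun s : ℝ => t • h s) (Ioi t) := h0.smul t
  rw [dtail, ← integral_smul, ← integral_sub h1 h2]
  congr 1
  funext s
  rw [sub_smul]

lemma dtail_hasDerivAt [CompleteSpace E] {h : ℝ → E} {T A : ℝ} (hT : 1 ≤ T) (hc : Continuous h)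
    (hb : ∀ s, T ≤ s → ‖h s‖ ≤ A * s ^ (-(5 / 2) : ℝ)) {t : ℝ} (ht : T < t) :
    HasDerivAt (dtail h) (-∫ s in Ioi t, h s) t := by
  have h1 := integrableOn_smul hT hc hb (le_refl T)
  have hsm : Continuous (fun s : ℝ => s • h s) := continuous_id.smul hc
  have h0 : IntegrableOn h (Ioi T) := integrableOn_dom hT (by norm_num) hc hb le_rfl
  have d1 := tail_hasDerivAt hsm h1 t
  have d0 := tail_hasDerivAt hc h0 t
  have d2 : HasDerivAt (fun t => (∫ s in Ioi t, s • h s) - t • ∫ s in Ioi t, h s)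
      (-(t • h t) - (t • -h t + (1 : ℝ) • ∫ s in Ioi t, h s)) t :=
    d1.sub ((hasDerivAt_id t).smul d0)
  have heq : dtail h =ᶠ[𝓝 t] fun t => (∫ s in Ioi t, s • h s) - t • ∫ s in Ioi t, h s := by
    filter_upwards [Ioi_mem_nhds ht] with u hu
    exact dtail_eq hT hc hb (le_of_lt hu)
  refine (d2.congr_of_eventuallyEq heq).congr_deriv ?_
  rw [one_smul, smul_neg]; abel

lemma continuousOn_dtail [CompleteSpace E] {h : ℝ → E} {T A : ℝ} (hT : 1 ≤ T)
    (hc : Continuous h) (hb : ∀ s, T ≤ s → ‖h s‖ ≤ A * s ^ (-(5 / 2) : ℝ)) :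
    Continuous (fun t => dtail h (max t T)) := by
  have h1 := integrableOn_smul hT hc hb (le_refl T)
  have hsm : Continuous (fun s : ℝ => s • h s) := continuous_id.smul hc
  have h0 : IntegrableOn h (Ioi T) := integrableOn_dom hT (by norm_num) hc hb le_rfl
  have c1 : Continuous fun t => ∫ s in Ioi t, s • h s :=
    continuous_iff_continuousAt.mpr fun t =>
      (tail_hasDerivAt hsm h1 t).continuousAt
  have c0 : Continuous fun t => ∫ s in Ioi t, h s :=
    continuous_iff_continuousAt.mpr fun t => (tail_hasDerivAt hc h0 t).continuousAt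
  have heq : (fun t => dtail h (max t T)) =
      (fun t => (∫ s in Ioi t, s • h s) - t • ∫ s in Ioi t, h s) ∘ (fun t => max t T) := by
    funext t
    exact dtail_eq hT hc hb (le_max_right _ _)
  rw [heq]
  exact (c1.sub (continuous_id.smul c0)).comp (continuous_id.max continuous_const)

lemma norm_dtail_le {h : ℝ → E} {T A : ℝ} (hT : 1 ≤ T)
    (hb : ∀ s, T ≤ s → ‖h s‖ ≤ A * s ^ (-(5 / 2) : ℝ)) {t : ℝ} (ht : T ≤ t) :
    ‖dtail h t‖ ≤ 2 * A * t ^ (-(1 / 2) : ℝ) := by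
  have ht0 : 0 < t := by linarith
  have hg : IntegrableOn (fun s : ℝ => A * s ^ (-(3 / 2) : ℝ)) (Ioi t) :=
    (integrableOn_Ioi_rpow_of_lt (by norm_num) ht0).const_mul A
  have h1 : ‖∫ s in Ioi t, (s - t) • h s‖ ≤ ∫ s in Ioi t, A * s ^ (-(3 / 2) : ℝ) := by
    refine norm_integral_le_of_norm_le hg ?_
    filter_upwards [ae_restrict_mem measurableSet_Ioi] with s hs
    have hs' : t < s := hs
    exact norm_smul_le_aux hT hb (by linarith) (by linarith) (by linarith)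
  refine h1.trans (le_of_eq ?_)
  rw [integral_const_mul, integral_Ioi_rpow_of_lt (by norm_num) ht0]
  norm_num
  ring

end basics

/-- Solutions of `e'' = G(t, e)` near infinity. -/
theorem exists_at_infinity {E : Type*} [NormedAddCommGroup E] [NormedSpace ℝ E] [CompleteSpace E]
    (G : ℝ → E → E) (T A B : ℝ) (hT : 1 ≤ T)
    (hAT : 2 * A * T ^ (-(1 / 2) : ℝ) ≤ 1) (hB : 0 ≤ B) (hBT : 2 * B * T ^ (-(1 / 2) : ℝ) ≤ 1 / 2)
    (hA : 0 ≤ A)
    (hc : ∀ e : ℝ → E, Continuous e → (∀ s, ‖e s‖ ≤ 1) → Continuous fun s => G s (e s))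
    (hbd : ∀ s, T ≤ s → ∀ x, ‖x‖ ≤ 1 → ‖G s x‖ ≤ A * s ^ (-(5 / 2) : ℝ))
    (hlip : ∀ s, T ≤ s → ∀ x y, ‖x‖ ≤ 1 → ‖y‖ ≤ 1 →
      ‖G s x - G s y‖ ≤ B * s ^ (-(5 / 2) : ℝ) * ‖x - y‖) :
    ∃ e w : ℝ → E, Continuous e ∧ (∀ t, ‖e t‖ ≤ 1) ∧
      (∀ t, T < t → HasDerivAt e (w t) t ∧ HasDerivAt w (G t (e t)) t) ∧
      ∀ t, T ≤ t → e t = dtail (fun s => G s (e s)) t := by
  have hpow : ∀ t, T ≤ t → t ^ (-(1 / 2) : ℝ) ≤ T ^ (-(1 / 2) : ℝ) := fun t ht =>
    Real.rpow_le_rpow_of_nonpos (by linarith) ht (by norm_num)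
  let S := Metric.closedBall (0 : ℝ →ᵇ E) 1
  have hSn : ∀ e : S, ∀ s, ‖(e : ℝ →ᵇ E) s‖ ≤ 1 := by
    intro e s
    have h1 := (e : ℝ →ᵇ E).norm_coe_le_norm s
    have h2 : ‖(e : ℝ →ᵇ E)‖ ≤ 1 := by
      have := e.2
      rwa [mem_closedBall_zero_iff] at this
    exact h1.trans h2
  have hSc : ∀ e : S, Continuous fun s => G s ((e : ℝ →ᵇ E) s) := fun e =>
    hc _ (e : ℝ →ᵇ E).continuous (hSn e)
  have hSb : ∀ e : S, ∀ s, T ≤ s → ‖G s ((e : ℝ →ᵇ E) s)‖ ≤ A * s ^ (-(5 / 2) : ℝ) :=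
    fun e s hs => hbd s hs _ (hSn e s)
  have hΨb : ∀ e : S, ∀ t, ‖dtail (fun s => G s ((e : ℝ →ᵇ E) s)) (max t T)‖ ≤ 1 := by
    intro e t
    refine (norm_dtail_le hT (hSb e) (le_max_right _ _)).trans (le_trans ?_ hAT)
    exact mul_le_mul_of_nonneg_left (hpow _ (le_max_right _ _)) (by linarith)
  let Ψ : S → S := fun e =>
    ⟨BoundedContinuousFunction.ofNormedAddCommGroup
      (fun t => dtail (fun s => G s ((e : ℝ →ᵇ E) s)) (max t T))
      (continuousOn_dtail hT (hSc e) (hSb e)) 1 (hΨb e), by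
        rw [mem_closedBall_zero_iff]
        exact BoundedContinuousFunction.norm_ofNormedAddCommGroup_le _ zero_le_one (hΨb e)⟩
  have hΨ : ∀ e : S, ∀ t, ((Ψ e : S) : ℝ →ᵇ E) t =
      dtail (fun s => G s ((e : ℝ →ᵇ E) s)) (max t T) := fun e t => rfl
  have hcontr : ContractingWith (1 / 2) Ψ := by
    refine ⟨by norm_num, LipschitzWith.of_dist_le_mul fun e e' => ?_⟩
    rw [Subtype.dist_eq, Subtype.dist_eq, BoundedContinuousFunction.dist_le (by positivity)]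
    intro t
    rw [hΨ, hΨ, dist_eq_norm]
    set u := max t T with hu
    have hTu : T ≤ u := le_max_right _ _
    have hint : ∀ e : S, IntegrableOn (fun s => (s - u) • G s ((e : ℝ →ᵇ E) s)) (Ioi u) := by
      intro e
      have hg : IntegrableOn (fun s : ℝ => A * s ^ (-(3 / 2) : ℝ)) (Ioi u) :=
        (integrableOn_Ioi_rpow_of_lt (by norm_num) (by linarith)).const_mul A
      refine Integrable.mono' hg ((continuous_id.sub continuous_const).smul
        (hSc e)).aestronglyMeasurable ?_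
      filter_upwards [ae_restrict_mem measurableSet_Ioi] with s hs
      have hs' : u < s := hs
      exact norm_smul_le_aux hT (hSb e) (by linarith) (by linarith) (by linarith)
    have hsub : dtail (fun s => G s ((e : ℝ →ᵇ E) s)) u - dtail (fun s => G s ((e' : ℝ →ᵇ E) s)) u =
        dtail (fun s => G s ((e : ℝ →ᵇ E) s) - G s ((e' : ℝ →ᵇ E) s)) u := by
      rw [dtail, dtail, dtail, ← integral_sub (hint e) (hint e')]
      congr 1
      funext s
      rw [smul_sub]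
    rw [hsub]
    have hb2 : ∀ s, T ≤ s → ‖G s ((e : ℝ →ᵇ E) s) - G s ((e' : ℝ →ᵇ E) s)‖ ≤
        (B * dist (e : ℝ →ᵇ E) e') * s ^ (-(5 / 2) : ℝ) := by
      intro s hs
      refine (hlip s hs _ _ (hSn e s) (hSn e' s)).trans ?_
      have h1 : ‖(e : ℝ →ᵇ E) s - (e' : ℝ →ᵇ E) s‖ ≤ dist (e : ℝ →ᵇ E) e' := by
        rw [← dist_eq_norm]
        exact BoundedContinuousFunction.dist_coe_le_dist s
      have h2 : 0 ≤ B * s ^ (-(5 / 2) : ℝ) :=
        mul_nonneg hB (Real.rpow_nonneg (by linarith) _)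
      calc _ ≤ B * s ^ (-(5 / 2) : ℝ) * dist (e : ℝ →ᵇ E) e' :=
            mul_le_mul_of_nonneg_left h1 h2
        _ = _ := by ring
    refine (norm_dtail_le hT hb2 hTu).trans ?_
    have h3 := mul_le_mul_of_nonneg_left (hpow u hTu) (by linarith : 0 ≤ 2 * B)
    have h4 : 2 * (B * dist (e : ℝ →ᵇ E) e') * u ^ (-(1 / 2) : ℝ) =
        (2 * B * u ^ (-(1 / 2) : ℝ)) * dist (e : ℝ →ᵇ E) e' := by ring
    rw [h4]
    have h5 : (((1 / 2 : NNReal)) : ℝ) = 1 / 2 := by norm_num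
    rw [h5]
    exact mul_le_mul_of_nonneg_right (h3.trans hBT) dist_nonneg
  have : CompleteSpace S := Metric.isClosed_closedBall.completeSpace_coe
  have : Nonempty S := ⟨⟨0, Metric.mem_closedBall_self zero_le_one⟩⟩
  obtain ⟨e, he⟩ : ∃ e : S, Ψ e = e := ⟨_, hcontr.fixedPoint_isFixedPt⟩
  have heq : ∀ t, T ≤ t → (e : ℝ →ᵇ E) t = dtail (fun s => G s ((e : ℝ →ᵇ E) s)) t := by
    intro t ht
    have := hΨ e t
    rw [he, max_eq_left ht] at this
    exact this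
  refine ⟨(e : ℝ →ᵇ E), fun t => -∫ s in Ioi t, G s ((e : ℝ →ᵇ E) s),
    (e : ℝ →ᵇ E).continuous, hSn e, fun t ht => ⟨?_, ?_⟩, heq⟩
  · refine (dtail_hasDerivAt hT (hSc e) (hSb e) ht).congr_of_eventuallyEq ?_
    filter_upwards [Ioi_mem_nhds ht] with u hu
    exact heq u (le_of_lt hu)
  · have h0 : IntegrableOn (fun s => G s ((e : ℝ →ᵇ E) s)) (Ioi T) :=
      integrableOn_dom hT (by norm_num) (hSc e) (hSb e) le_rfl
    have := (tail_hasDerivAt (hSc e) h0 t).neg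
    rw [neg_neg] at this
    exact this

end Pool.Agent.V1185.AtInfinity
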