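import Pool.Agent.V1185.GreedyWalk

/-!
Periodic sign words `- - - +^k` of the greedy planar walk for arbitrarily large `k`, with
`k + 3` divisible by four and `α` between `1/3` and `3/8`.
-/

namespace Pool.Agent.V1185.GreedyPeriodic

open Filter Topology Pool.Agent.V1185.GreedyWalk

noncomputable section

/-! ### The sign word -/

/-- The periodic sign word `- - - +^k`. -/
def word (k n : ℕ) : ℤ := if n % (k + 3) < 3 then -1 else 1

lemma word_period (k p : ℕ) (hk : 3 ≤ k) :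
    IsEventualPeriod (word k) p ↔ 1 ≤ p ∧ (k + 3) ∣ p := by
  constructor
  · rintro ⟨hp, N, hN⟩
    refine ⟨hp, ?_⟩
    have hneg : ∀ n, N ≤ n → n % (k + 3) < 3 → (n + p) % (k + 3) < 3 := by
      intro n hn h1
      have h2 := hN n hn
      simp only [word] at h2
      rw [if_pos h1] at h2
      by_contra h3
      rw [if_neg h3] at h2
      norm_num at h2
    set n := N * (k + 3) with hn
    have hNn : N ≤ n := Nat.le_mul_of_pos_right N (by omega)
    have e0 : n % (k + 3) = 0 := Nat.mul_mod_left _ _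
    have e : ∀ i, i < k + 3 → (n + i) % (k + 3) = i := by
      intro i hi
      rw [Nat.add_mod, e0, zero_add, Nat.mod_mod, Nat.mod_eq_of_lt hi]
    have h0 := hneg (n + 0) (by omega) (by rw [e 0 (by omega)]; omega)
    have h1 := hneg (n + 1) (by omega) (by rw [e 1 (by omega)]; omega)
    have h2 := hneg (n + 2) (by omega) (by rw [e 2 (by omega)]; omega)
    have f : ∀ i, (n + i + p) % (k + 3) = (p + i) % (k + 3) := by
      intro i
      rw [show n + i + p = n + (p + i) by ring, Nat.add_mod, e0, zero_add, Nat.mod_mod]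
    rw [f] at h0 h1 h2
    rw [Nat.dvd_iff_mod_eq_zero]
    set r := p % (k + 3) with hr
    have hrlt : r < k + 3 := Nat.mod_lt _ (by omega)
    have g : ∀ i, (p + i) % (k + 3) = (r + i) % (k + 3) := by
      intro i; rw [Nat.add_mod, Nat.add_mod r]; simp [hr]
    rw [g] at h0 h1 h2
    rw [add_zero, Nat.mod_eq_of_lt hrlt] at h0
    rw [Nat.mod_eq_of_lt (by omega)] at h1 h2
    omega
  · rintro ⟨hp, q, rfl⟩
    refine ⟨hp, 0, fun n _ => ?_⟩
    simp [word]

/-- Orbit with the word `- - - +^k`. -/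
lemma orbit_of_conditions (α : ℝ) (w : ℂ) (hw : w = dir α 1) (hw1 : w ≠ 1) (b : ℂ)
    (hb : b * w = 1) (k : ℕ) (hk : 1 ≤ k) (v : ℂ) (h1 : 1 / 2 < v.re)
    (h2 : 1 / 2 < (b * (v - 2)).re) (h3 : 1 / 2 < (b * (b * (v - 2) - 2)).re)
    (h4 : ∀ j, 1 ≤ j → j ≤ k → (w ^ j * v).re < 1 / 2)
    (h5 : b * (b * (b * (v - 2) - 2) - 2) = w ^ k * v) :
    ∃ z, Admissible α z ∧ signs α z = word k := by
  set c : ℕ → ℂ := fun i => if i = 0 then v else if i = 1 then b * (v - 2) else
    if i = 2 then b * (b * (v - 2) - 2) else w ^ (k - (i - 3)) * v with hc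
  have hc0 : c 0 = v := rfl
  have hc1 : c 1 = b * (v - 2) := rfl
  have hc2 : c 2 = b * (b * (v - 2) - 2) := rfl
  have hc3 : ∀ j, c (j + 3) = w ^ (k - j) * v := fun j => rfl
  have hred := reduction α w hw hw1 b hb (fun n => c (n % (k + 3))) (word k) (by
    intro n
    set i := n % (k + 3) with hi
    have hilt : i < k + 3 := Nat.mod_lt _ (by omega)
    have hnext : (n + 1) % (k + 3) = if i + 1 = k + 3 then 0 else i + 1 := by
      rw [Nat.add_mod, ← hi, Nat.mod_eq_of_lt (show 1 < k + 3 by omega)]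
      split_ifs with h
      · rw [h, Nat.mod_self]
      · exact Nat.mod_eq_of_lt (by omega)
    rw [hnext]
    rcases (by omega : i = 0 ∨ i = 1 ∨ i = 2 ∨ 3 ≤ i) with h | h | h | h
    · right
      rw [if_neg (by omega)]
      refine ⟨by rw [h]; exact h1, by simp [word, ← hi, h], ?_⟩
      rw [h, hc0]
      exact hc1
    · right
      rw [if_neg (by omega)]
      refine ⟨by rw [h]; exact h2, by simp [word, ← hi, h], ?_⟩
      rw [h, hc1]
      exact hc2
    · right
      rw [if_neg (by omega)]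
      refine ⟨by rw [h]; exact h3, by simp [word, ← hi, h], ?_⟩
      rw [h]
      change c (0 + 3) = _
      rw [hc3, hc2, h5]
      simp
    · left
      obtain ⟨j, hj⟩ : ∃ j, i = j + 3 := ⟨i - 3, by omega⟩
      have hjk : j < k := by omega
      refine ⟨?_, ?_, ?_⟩
      · rw [hj, hc3]; exact h4 (k - j) (by omega) (by omega)
      · simp only [word, ← hi]
        rw [if_neg (by omega)]
      · rw [hj, hc3]
        split_ifs with h
        · rw [hc0]
          have : k - j = 1 := by omega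
          rw [this, pow_one, ← mul_assoc, hb, one_mul]
        · rw [show j + 3 + 1 = (j + 1) + 3 by ring, hc3]
          have : k - j = (k - (j + 1)) + 1 := by omega
          rw [this, pow_succ', ← mul_assoc, ← mul_assoc, hb, one_mul])
  exact ⟨_, hred.1, funext hred.2⟩

/-! ### Arithmetic choice of `a, b` -/

lemma exists_ab (x : ℝ) (hx : Irrational x) (B : ℕ) (ε : ℝ) (hε : 0 < ε) :
    ∃ (a : ℤ) (b : ℕ), B ≤ b ∧ b % 4 = 2 ∧ Odd a ∧ IsCoprime a (b : ℤ) ∧
      |(b : ℝ) * x - a| < ε := by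
  -- a lower bound for small denominators
  have hsmall : ∃ ε' : ℝ, 0 < ε' ∧ ε' ≤ ε ∧
      ∀ b : ℕ, 1 ≤ b → b < B → ∀ a : ℤ, ε' ≤ |(b : ℝ) * x - a| := by
    induction B with
    | zero => exact ⟨ε, hε, le_rfl, fun b _ hb => absurd hb (by omega)⟩
    | succ B ih =>
      obtain ⟨e, he, hee, hB⟩ := ih
      rcases Nat.eq_zero_or_pos B with h0 | h0
      · exact ⟨ε, hε, le_rfl, fun b hb1 hb2 => absurd hb2 (by omega)⟩
      have hirr : Irrational ((B : ℝ) * x) := by
        have := hx.ratCast_mul (q := (B : ℚ)) (by exact_mod_cast h0.ne')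
        exact_mod_cast this
      have hd : 0 < |(B : ℝ) * x - round ((B : ℝ) * x)| := by
        rw [abs_pos, sub_ne_zero]
        exact hirr.ne_int _
      refine ⟨min e |(B : ℝ) * x - round ((B : ℝ) * x)|, lt_min he hd,
        (min_le_left _ _).trans hee, fun b hb1 hb2 a => ?_⟩
      rcases Nat.lt_or_ge b B with h | h
      · exact (min_le_left _ _).trans (hB b hb1 h a)
      · obtain rfl : b = B := by omega
        exact (min_le_right _ _).trans (round_le _ a)
  obtain ⟨ε', hε', hεε', hB⟩ := hsmall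
  have hdense : Dense (AddSubgroup.closure {2 * x, (1 : ℝ)} : Set ℝ) := by
    rw [dense_addSubgroupClosure_pair_iff, div_one]
    exact_mod_cast hx.ratCast_mul (q := 2) (by norm_num)
  obtain ⟨y, hy1, hy2⟩ := Metric.dense_iff.mp hdense (-(x - 1 / 2)) (ε' / 2) (by linarith)
  obtain ⟨m, n, hmn⟩ := AddSubgroup.mem_closure_pair.mp hy2
  rw [Metric.mem_ball, Real.dist_eq] at hy1
  have hkey : |((2 * (2 * m + 1) : ℤ) : ℝ) * x - ((1 - 2 * n : ℤ) : ℝ)| < ε' := by
    have : ((2 * (2 * m + 1) : ℤ) : ℝ) * x - ((1 - 2 * n : ℤ) : ℝ) =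
        2 * (y - -(x - 1 / 2)) := by
      rw [← hmn]
      push_cast
      simp only [zsmul_eq_mul]
      ring
    rw [this, abs_mul, abs_of_pos (by norm_num : (0 : ℝ) < 2)]
    linarith
  -- make the denominator positive
  obtain ⟨a1, b1, ha1, hb1, hb1', hab⟩ : ∃ a1 b1 : ℤ, Odd a1 ∧ 0 < b1 ∧ b1 % 4 = 2 ∧
      |(b1 : ℝ) * x - a1| < ε' := by
    rcases lt_trichotomy (2 * (2 * m + 1)) 0 with h | h | h
    · refine ⟨-(1 - 2 * n), -(2 * (2 * m + 1)), ⟨n - 1, by ring⟩, by omega, by omega, ?_⟩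
      have e : ((-(2 * (2 * m + 1)) : ℤ) : ℝ) * x - ((-(1 - 2 * n) : ℤ) : ℝ) =
          -(((2 * (2 * m + 1) : ℤ) : ℝ) * x - ((1 - 2 * n : ℤ) : ℝ)) := by
        push_cast; ring
      rw [e, abs_neg]
      exact hkey
    · omega
    · exact ⟨1 - 2 * n, 2 * (2 * m + 1), ⟨-n, by ring⟩, h, by omega, hkey⟩
  have hg : 0 < Int.gcd a1 b1 := Int.gcd_pos_of_ne_zero_right _ hb1.ne'
  obtain ⟨a', b', hgcd, e1, e2⟩ := Int.exists_gcd_one hg
  set g : ℤ := (Int.gcd a1 b1 : ℤ) with hgdef
  have hg' : 0 < g := by rw [hgdef]; exact_mod_cast hg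
  have hb' : 0 < b' := by
    by_contra hcon
    have : b' * g ≤ 0 := mul_nonpos_of_nonpos_of_nonneg (not_lt.mp hcon) hg'.le
    omega
  have hodd : Odd (a' * g) := e1 ▸ ha1
  rw [Int.odd_mul] at hodd
  obtain ⟨hoa, hog⟩ := hodd
  have hb4 : b' % 4 = 2 := by
    have h1 : (b' * g) % 4 = 2 := by rw [← e2]; exact hb1'
    rw [Int.mul_emod] at h1
    have h2 : g % 4 = 1 ∨ g % 4 = 3 := by
      obtain ⟨r, hr⟩ := hog
      omega
    have h3 : b' % 4 = 0 ∨ b' % 4 = 1 ∨ b' % 4 = 2 ∨ b' % 4 = 3 := by omega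
    rcases h2 with h2 | h2 <;> rcases h3 with h3 | h3 | h3 | h3 <;> rw [h2, h3] at h1 <;>
      first | exact h3 | (norm_num at h1)
  have hlt : |(b' : ℝ) * x - a'| < ε' := by
    have h1 : (b1 : ℝ) * x - a1 = g * ((b' : ℝ) * x - a') := by
      rw [e1, e2]; push_cast; ring
    rw [h1, abs_mul] at hab
    have h2 : (1 : ℝ) ≤ |(g : ℝ)| := by
      rw [abs_of_pos (by exact_mod_cast hg')]
      exact_mod_cast hg'
    have h3 := abs_nonneg ((b' : ℝ) * x - a')
    nlinarith
  have hcast : ((b'.toNat : ℕ) : ℤ) = b' := Int.toNat_of_nonneg hb'.le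
  have hcastR : ((b'.toNat : ℕ) : ℝ) = (b' : ℝ) := by exact_mod_cast hcast
  refine ⟨a', b'.toNat, ?_, by omega, hoa, ?_, ?_⟩
  · by_contra hcon
    have := hB b'.toNat (by omega) (by omega) a'
    rw [hcastR] at this
    linarith
  · rw [hcast]
    exact Int.isCoprime_iff_gcd_eq_one.mpr hgcd
  · rw [hcastR]
    linarith

/-! ### The base angle -/

/-- base angle -/
def θ₀ : ℝ := Real.arccos (-2 / 3)

lemma cos_θ₀ : Real.cos θ₀ = -2 / 3 := Real.cos_arccos (by norm_num) (by norm_num)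

lemma sin_θ₀_bounds : 0.745 < Real.sin θ₀ ∧ Real.sin θ₀ < 0.746 := by
  have h := Real.sin_sq_add_cos_sq θ₀
  rw [cos_θ₀] at h
  have h0 : 0 ≤ Real.sin θ₀ :=
    Real.sin_nonneg_of_nonneg_of_le_pi (Real.arccos_nonneg _) (Real.arccos_le_pi _)
  constructor <;> nlinarith

lemma irr_θ₀ : Irrational (θ₀ / Real.pi) := by
  rintro ⟨q, hq⟩
  have h := niven (θ := θ₀) ⟨q, by rw [hq]; field_simp⟩ ⟨-2 / 3, by rw [cos_θ₀]; push_cast; ring⟩
  rw [cos_θ₀] at h
  simp only [Set.mem_insert_iff, Set.mem_singleton_iff] at h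
  norm_num at h

lemma θ₀_mem : 0 ≤ θ₀ ∧ θ₀ ≤ Real.pi := ⟨Real.arccos_nonneg _, Real.arccos_le_pi _⟩

lemma abs_cos_sub (x y : ℝ) : |Real.cos x - Real.cos y| ≤ |x - y| := by
  have := Real.abs_cos_sub_cos_le x y
  exact this

lemma abs_sin_sub (x y : ℝ) : |Real.sin x - Real.sin y| ≤ |x - y| := by
  have := Real.abs_sin_sub_sin_le x y
  exact this

/-- the angle -/
def Th (a : ℤ) (b : ℕ) (δ : ℝ) : ℝ := (a * Real.pi + 2 * δ) / b

/-- the defect -/
def kap (a : ℤ) (b : ℕ) (δ : ℝ) : ℝ :=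
  (Real.cos δ * (2 + 3 * Real.cos (Th a b δ)) + Real.sin (Th a b δ) * Real.sin δ) /
    Real.cos (Th a b δ + δ)

section estimates

variable (a : ℤ) (b : ℕ) (hb : 1000 ≤ b) (hab : |(b : ℝ) * (θ₀ / Real.pi) - a| < 1 / 100)

include hb hab

lemma Th_near (δ : ℝ) (hδ : |δ| ≤ 1 / (2 * b)) : |Th a b δ - θ₀| ≤ 0.033 / b := by
  have hb0 : (0 : ℝ) < b := by
    have : (1000 : ℝ) ≤ b := by exact_mod_cast hb
    linarith
  have hb1 : (1000 : ℝ) ≤ b := by exact_mod_cast hb
  have e : Th a b δ - θ₀ = (-(Real.pi * ((b : ℝ) * (θ₀ / Real.pi) - a)) + 2 * δ) / b := by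
    rw [Th]; field_simp; ring
  rw [e, abs_div, abs_of_pos hb0]
  apply div_le_div_of_nonneg_right _ hb0.le
  refine (abs_add_le _ _).trans ?_
  rw [abs_neg, abs_mul, abs_mul, abs_of_pos Real.pi_pos, abs_of_pos (by norm_num : (0 : ℝ) < 2)]
  have h1 : Real.pi < 3.15 := Real.pi_lt_d2
  have h2 : Real.pi * |(b : ℝ) * (θ₀ / Real.pi) - a| ≤ 3.15 * (1 / 100) := by
    apply mul_le_mul h1.le hab.le (abs_nonneg _) (by norm_num)
  have h3 : 1 / (2 * (b : ℝ)) ≤ 1 / 2000 := by
    apply one_div_le_one_div_of_le (by norm_num); linarith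
  linarith

lemma bounds (δ : ℝ) (hδ : |δ| ≤ 1 / (2 * b)) :
    |2 + 3 * Real.cos (Th a b δ)| ≤ 0.1 / b ∧ 0.744 < Real.sin (Th a b δ) ∧
    Real.sin (Th a b δ) < 0.747 ∧ Real.cos (Th a b δ + δ) < -0.6 ∧
    -0.667 < Real.cos (Th a b δ) ∧ Real.cos (Th a b δ) < -0.666 ∧
    |δ| ≤ 1 / 2000 ∧ |Th a b δ - θ₀| ≤ 0.000033 := by
  have hb1 : (1000 : ℝ) ≤ b := by exact_mod_cast hb
  have hb0 : (0 : ℝ) < b := by linarith
  have h1 := Th_near a b hb hab δ hδ
  have h2 : 0.033 / (b : ℝ) ≤ 0.000033 := by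
    rw [div_le_iff₀ hb0]; linarith
  have h3 : 1 / (2 * (b : ℝ)) ≤ 1 / 2000 := by
    apply one_div_le_one_div_of_le (by norm_num); linarith
  have h4 := abs_cos_sub (Th a b δ) θ₀
  have h5 := abs_sin_sub (Th a b δ) θ₀
  have h6 := abs_cos_sub (Th a b δ + δ) θ₀
  rw [cos_θ₀] at h4 h6
  have hs := sin_θ₀_bounds
  have h7 : |Th a b δ + δ - θ₀| ≤ 0.000033 + 1 / 2000 := by
    have : Th a b δ + δ - θ₀ = (Th a b δ - θ₀) + δ := by ring
    rw [this]
    refine (abs_add_le _ _).trans ?_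
    linarith
  have h8 := abs_le.mp (h4.trans (h1.trans h2))
  have h9 := abs_le.mp (h5.trans (h1.trans h2))
  have h10 := abs_le.mp (h6.trans h7)
  refine ⟨?_, by linarith [h9.1], by linarith [h9.2], by linarith [h10.2], by linarith [h8.1],
    by linarith [h8.2], hδ.trans h3, h1.trans h2⟩
  have e : 2 + 3 * Real.cos (Th a b δ) = 3 * (Real.cos (Th a b δ) - -2 / 3) := by ring
  rw [e, abs_mul, abs_of_pos (by norm_num : (0 : ℝ) < 3)]
  have h11 := h4.trans h1
  have h12 : 3 * (0.033 / (b : ℝ)) ≤ 0.1 / b := by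
    rw [← mul_div_assoc]; apply div_le_div_of_nonneg_right _ hb0.le; norm_num
  linarith

lemma kap_right : kap a b (1 / (2 * b)) < 0 := by
  have hb1 : (1000 : ℝ) ≤ b := by exact_mod_cast hb
  have hb0 : (0 : ℝ) < b := by linarith
  set d : ℝ := 1 / (2 * b) with hd
  have hd0 : 0 < d := by positivity
  obtain ⟨h1, h2, h3, h4, h5, h6, h7, h8⟩ := bounds a b hb hab d (by rw [abs_of_pos hd0])
  rw [abs_of_pos hd0] at h7
  have hsin := Real.sin_gt_sub_cube hd0
  have hcos1 := Real.cos_le_one d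
  have hcos0 := Real.one_sub_sq_div_two_le_cos (x := d)
  have hd3 : d ^ 3 ≤ d * (1 / 2000) := by nlinarith [mul_pos hd0 hd0]
  have hbd : 0.1 / (b : ℝ) = 0.2 * d := by rw [hd]; field_simp; norm_num
  rw [hbd] at h1
  have h9 := (abs_le.mp h1).1
  have h10 : -(0.2 * d) ≤ Real.cos d * (2 + 3 * Real.cos (Th a b d)) := by
    have h11 : |Real.cos d * (2 + 3 * Real.cos (Th a b d))| ≤ 1 * (0.2 * d) := by
      rw [abs_mul]
      exact mul_le_mul (Real.abs_cos_le_one d) h1 (abs_nonneg _) (by norm_num)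
    have := (abs_le.mp h11).1
    linarith
  have h12 : 0.744 * (0.99 * d) ≤ Real.sin (Th a b d) * Real.sin d := by
    apply mul_le_mul h2.le (by nlinarith) (by positivity) (by linarith)
  rw [kap]
  apply div_neg_of_pos_of_neg
  · nlinarith
  · linarith

lemma kap_left : 1 / (b : ℝ) ^ 2 < kap a b (-(1 / (2 * b))) := by
  have hb1 : (1000 : ℝ) ≤ b := by exact_mod_cast hb
  have hb0 : (0 : ℝ) < b := by linarith
  set d : ℝ := 1 / (2 * b) with hd
  have hd0 : 0 < d := by positivity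
  obtain ⟨h1, h2, h3, h4, h5, h6, h7, h8⟩ := bounds a b hb hab (-d) (by
    rw [abs_neg, abs_of_pos hd0])
  rw [abs_neg, abs_of_pos hd0] at h7
  have hsin := Real.sin_gt_sub_cube hd0
  have hd3 : d ^ 3 ≤ d * (1 / 2000) := by nlinarith [mul_pos hd0 hd0]
  have hbd : 0.1 / (b : ℝ) = 0.2 * d := by rw [hd]; field_simp; norm_num
  rw [hbd] at h1
  have h10 : Real.cos (-d) * (2 + 3 * Real.cos (Th a b (-d))) ≤ 0.2 * d := by
    have h11 : |Real.cos (-d) * (2 + 3 * Real.cos (Th a b (-d)))| ≤ 1 * (0.2 * d) := by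
      rw [abs_mul]
      exact mul_le_mul (Real.abs_cos_le_one _) h1 (abs_nonneg _) (by norm_num)
    have := (abs_le.mp h11).2
    linarith
  have h12 : 0.744 * (0.99 * d) ≤ Real.sin (Th a b (-d)) * Real.sin d := by
    apply mul_le_mul h2.le (by nlinarith) (by positivity) (by linarith)
  have hneg : Real.sin (-d) = -Real.sin d := Real.sin_neg d
  rw [kap, lt_div_iff_of_neg (by linarith), hneg]
  have h13 := Real.neg_one_le_cos (Th a b (-d) + -d)
  have h14 : -(1 / (b : ℝ) ^ 2) ≤ 1 / (b : ℝ) ^ 2 * Real.cos (Th a b (-d) + -d) := by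
    have : (0 : ℝ) < 1 / (b : ℝ) ^ 2 := by positivity
    nlinarith
  have h15 : 1 / (b : ℝ) ^ 2 ≤ 0.1 * d := by
    rw [hd]
    rw [div_le_iff₀ (by positivity)]
    field_simp
    linarith
  nlinarith

lemma continuousAt_kap (δ : ℝ) (hδ : |δ| ≤ 1 / (2 * b)) : ContinuousAt (kap a b) δ := by
  obtain ⟨-, -, -, h4, -⟩ := bounds a b hb hab δ hδ
  have hT : Continuous (Th a b) := by unfold Th; fun_prop
  unfold kap
  apply ContinuousAt.div
  · fun_prop
  · fun_prop
  · linarith

/-- Choice of the parameter. -/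
lemma exists_delta : ∃ δ : ℝ, |δ| < 1 / (2 * b) ∧ 0 < kap a b δ ∧ kap a b δ < 1 / (b : ℝ) ^ 2 ∧
    Irrational (Th a b δ / (2 * Real.pi)) := by
  have hb1 : (1000 : ℝ) ≤ b := by exact_mod_cast hb
  have hb0 : (0 : ℝ) < b := by linarith
  set d : ℝ := 1 / (2 * b) with hd
  have hd0 : 0 < d := by positivity
  have hcont : ContinuousOn (kap a b) (Set.Icc (-d) d) := by
    intro δ hδ
    exact (continuousAt_kap a b hb hab δ (abs_le.mpr hδ)).continuousWithinAt
  have hr := kap_right a b hb hab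
  have hl := kap_left a b hb hab
  rw [← hd] at hr hl
  have hy : (0 : ℝ) < 1 / (b : ℝ) ^ 2 := by positivity
  have hmem : 1 / (b : ℝ) ^ 2 / 2 ∈ Set.Icc (kap a b d) (kap a b (-d)) :=
    ⟨by linarith, by linarith⟩
  obtain ⟨δ₀, hδ₀, hk⟩ := intermediate_value_Icc' (by linarith) hcont hmem
  have hlt : |δ₀| < d := by
    rw [abs_lt]
    constructor
    · rcases hδ₀.1.eq_or_lt with h | h
      · rw [← h] at hk; linarith
      · exact h
    · rcases hδ₀.2.eq_or_lt with h | h
      · rw [h] at hk; linarith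
      · exact h
  have hev : ∀ᶠ δ in 𝓝 δ₀, |δ| < d ∧ 0 < kap a b δ ∧ kap a b δ < 1 / (b : ℝ) ^ 2 := by
    have hc := continuousAt_kap a b hb hab δ₀ hlt.le
    refine ((continuous_abs.continuousAt.eventually_lt continuousAt_const hlt)).and
      ((continuousAt_const.eventually_lt hc (by rw [hk]; linarith)).and
        (hc.eventually_lt continuousAt_const (by rw [hk]; linarith)))
  rw [Metric.eventually_nhds_iff] at hev
  obtain ⟨r, hr0, hr1⟩ := hev
  have hpb : 0 < Real.pi * b := mul_pos Real.pi_pos hb0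
  obtain ⟨t, ht, ht1, ht2⟩ := exists_irrational_btwn
    (show δ₀ / (Real.pi * b) < (δ₀ + r) / (Real.pi * b) from
      div_lt_div_of_pos_right (by linarith) hpb)
  rw [div_lt_iff₀ hpb] at ht1
  rw [lt_div_iff₀ hpb] at ht2
  obtain ⟨i1, i2, i3⟩ := hr1 (y := t * (Real.pi * b)) (by
    rw [Real.dist_eq, abs_lt]; constructor <;> linarith)
  refine ⟨t * (Real.pi * b), i1, i2, i3, ?_⟩
  have e : Th a b (t * (Real.pi * b)) / (2 * Real.pi) = ((a / (2 * b) : ℚ) : ℝ) + t := by
    rw [Th]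
    push_cast
    have := Real.pi_ne_zero
    field_simp
  rw [e]
  exact ht.ratCast_add _

end estimates

/-! ### Verification of the conditions -/

lemma cos_bound (b : ℕ) (hb : 1000 ≤ b) (N : ℕ) (hN1 : 1 ≤ N) (hN2 : N + 1 ≤ 2 * b) (η δ : ℝ)
    (hη : |η| ≤ |δ|) (hδ : |δ| < 1 / (2 * b)) :
    Real.cos (N * Real.pi / b + η) ≤ Real.cos (Real.pi / b - |δ|) := by
  have hb1 : (1000 : ℝ) ≤ b := by exact_mod_cast hb
  have hb0 : (0 : ℝ) < b := by linarith
  have hη' := abs_le.mp hη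
  have hN1' : (1 : ℝ) ≤ N := by exact_mod_cast hN1
  have hN2' : (N : ℝ) + 1 ≤ 2 * b := by exact_mod_cast hN2
  have hpb : 0 < Real.pi / b := div_pos Real.pi_pos hb0
  have e : (N : ℝ) * Real.pi / b = N * (Real.pi / b) := by ring
  have hlow : Real.pi / b - |δ| ≤ N * Real.pi / b + η := by
    rw [e]; nlinarith [hη'.1]
  have hhigh : N * Real.pi / b + η ≤ 2 * Real.pi - (Real.pi / b - |δ|) := by
    rw [e]
    have h1 : ((N : ℝ) + 1) * (Real.pi / b) ≤ 2 * b * (Real.pi / b) :=
      mul_le_mul_of_nonneg_right hN2' hpb.le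
    have h2 : 2 * (b : ℝ) * (Real.pi / b) = 2 * Real.pi := by field_simp
    nlinarith [hη'.2]
  have h0 : 0 ≤ Real.pi / b - |δ| := by
    have h1 : 1 / (2 * (b : ℝ)) ≤ Real.pi / b := by
      rw [div_le_div_iff₀ (by positivity) hb0]
      have := Real.pi_gt_three
      nlinarith
    linarith
  rcases le_or_gt (N * Real.pi / b + η) Real.pi with h | h
  · exact Real.cos_le_cos_of_nonneg_of_le_pi h0 h hlow
  · rw [← Real.cos_two_pi_sub (N * Real.pi / b + η)]
    exact Real.cos_le_cos_of_nonneg_of_le_pi h0 (by linarith) (by linarith)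

lemma gap (b : ℕ) (hb : 1000 ≤ b) (δ : ℝ) (hδ : |δ| < 1 / (2 * b)) :
    Real.cos (Real.pi / b - |δ|) + 1 / (b : ℝ) ^ 2 < Real.cos δ := by
  have hb1 : (1000 : ℝ) ≤ b := by exact_mod_cast hb
  have hb0 : (0 : ℝ) < b := by linarith
  have hpi := Real.pi_gt_three
  have h1 := Real.cos_sub_cos |δ| (Real.pi / b - |δ|)
  have e1 : (|δ| + (Real.pi / b - |δ|)) / 2 = Real.pi / (2 * b) := by ring
  have e2 : (|δ| - (Real.pi / b - |δ|)) / 2 = -(Real.pi / (2 * b) - |δ|) := by ring
  rw [e1, e2, Real.sin_neg, Real.cos_abs] at h1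
  have h2 : 1 / (b : ℝ) ≤ Real.sin (Real.pi / (2 * b)) := by
    have := Real.mul_le_sin (x := Real.pi / (2 * b)) (by positivity) (by
      apply div_le_div_of_nonneg_left Real.pi_pos.le (by norm_num); linarith)
    have e3 : 2 / Real.pi * (Real.pi / (2 * b)) = 1 / b := by
      have := Real.pi_ne_zero
      field_simp
    rwa [e3] at this
  have h3 : 0.6 / (b : ℝ) < Real.sin (Real.pi / (2 * b) - |δ|) := by
    have hle : |δ| ≤ Real.pi / (2 * b) := by
      refine hδ.le.trans ?_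
      apply div_le_div_of_nonneg_right _ (by positivity); linarith
    have := Real.mul_le_sin (x := Real.pi / (2 * b) - |δ|) (by linarith) (by
      have : Real.pi / (2 * b) ≤ Real.pi / 2 := by
        apply div_le_div_of_nonneg_left Real.pi_pos.le (by norm_num); linarith
      linarith [abs_nonneg δ])
    refine lt_of_lt_of_le ?_ this
    have e3 : 2 / Real.pi * (Real.pi / (2 * b) - |δ|) = 1 / b - 2 / Real.pi * |δ| := by
      have := Real.pi_ne_zero
      field_simp
    rw [e3]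
    have h4 : 2 / Real.pi * |δ| ≤ 2 / 3 * (1 / (2 * b)) := by
      apply mul_le_mul _ hδ.le (abs_nonneg _) (by norm_num)
      apply div_le_div_of_nonneg_left (by norm_num) (by norm_num) hpi.le
    have h5 : 0.6 / (b : ℝ) < 1 / b - 2 / 3 * (1 / (2 * b)) := by
      have : 1 / (b : ℝ) - 2 / 3 * (1 / (2 * b)) = (2 / 3) / b := by field_simp; norm_num
      rw [this]
      apply div_lt_div_of_pos_right _ hb0; norm_num
    linarith
  have h6 : 1 / (b : ℝ) ^ 2 < 2 * (1 / (b : ℝ) * (0.6 / b)) := by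
    have : 2 * (1 / (b : ℝ) * (0.6 / b)) = 1.2 / (b : ℝ) ^ 2 := by field_simp; norm_num
    rw [this]
    apply div_lt_div_of_pos_right _ (by positivity); norm_num
  have h7 : 1 / (b : ℝ) * (0.6 / b) ≤
      Real.sin (Real.pi / (2 * b)) * Real.sin (Real.pi / (2 * b) - |δ|) := by
    apply mul_le_mul h2 h3.le (by positivity) (le_trans (by positivity) h2)
  nlinarith

/-- The main construction. -/
theorem exists_periodic (B : ℕ) : ∃ α : ℝ, 1 / 3 < α ∧ α < 3 / 8 ∧ Irrational α ∧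
    ∃ (z : ℂ) (L : ℕ), B ≤ L ∧ 4 ∣ L ∧ Admissible α z ∧
      ∀ p, IsEventualPeriod (signs α z) p ↔ 1 ≤ p ∧ L ∣ p := by
  obtain ⟨a, b, hbB, hb4, haodd, hcop, hab⟩ :=
    exists_ab (θ₀ / Real.pi) irr_θ₀ (max B 1000) (1 / 100) (by norm_num)
  have hb : 1000 ≤ b := (le_max_right _ _).trans hbB
  have hb1 : (1000 : ℝ) ≤ b := by exact_mod_cast hb
  have hb0 : (0 : ℝ) < b := by linarith
  obtain ⟨δ, hδ, hk0, hk1, hirr⟩ := exists_delta a b hb hab
  obtain ⟨-, hs1, hs2, hcd, hc1, hc2, hδ', hθ⟩ := bounds a b hb hab δ hδ.le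
  set θ := Th a b δ with hθdef
  set κ := kap a b δ with hκdef
  have hκ1 : κ < 0.000001 := by
    refine hk1.trans_le ?_
    rw [div_le_iff₀ (by positivity)]
    nlinarith
  set α := θ / (2 * Real.pi) with hα
  have hαθ : 2 * Real.pi * α = θ := by
    rw [hα]; have := Real.pi_ne_zero; field_simp
  -- position of θ
  have hθ' := abs_le.mp hθ
  have hθ₀ := θ₀_mem
  have hpi3 := Real.pi_gt_three
  have hθpos : 0 < θ₀ - 0.01 := by
    by_contra hcon
    have h1 : Real.cos 0.01 ≤ Real.cos θ₀ :=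
      Real.cos_le_cos_of_nonneg_of_le_pi hθ₀.1 (by linarith) (by linarith)
    have h2 := Real.one_sub_sq_div_two_le_cos (x := (0.01 : ℝ))
    rw [cos_θ₀] at h1
    norm_num at h1 h2
    linarith
  have hθpi : θ₀ + 0.01 < Real.pi := by
    by_contra hcon
    have h1 : Real.cos θ₀ ≤ Real.cos (Real.pi - 0.01) :=
      Real.cos_le_cos_of_nonneg_of_le_pi (by linarith) hθ₀.2 (by linarith)
    rw [Real.cos_pi_sub, cos_θ₀] at h1
    have h2 := Real.one_sub_sq_div_two_le_cos (x := (0.01 : ℝ))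
    norm_num at h1 h2
    linarith
  have hθlow : 2 * Real.pi / 3 < θ := by
    by_contra hcon
    have h1 : Real.cos (2 * Real.pi / 3) ≤ Real.cos θ :=
      Real.cos_le_cos_of_nonneg_of_le_pi (by linarith) (by linarith) (not_lt.mp hcon)
    have h2 : Real.cos (2 * Real.pi / 3) = -(1 / 2) := by
      rw [show 2 * Real.pi / 3 = Real.pi - Real.pi / 3 by ring, Real.cos_pi_sub,
        Real.cos_pi_div_three]
    rw [h2] at h1
    linarith
  have hθhigh : θ < 3 * Real.pi / 4 := by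
    by_contra hcon
    have h1 : Real.cos θ ≤ Real.cos (3 * Real.pi / 4) :=
      Real.cos_le_cos_of_nonneg_of_le_pi (by linarith) (by linarith) (not_lt.mp hcon)
    have h2 : Real.cos (3 * Real.pi / 4) = -(√2 / 2) := by
      rw [show 3 * Real.pi / 4 = Real.pi - Real.pi / 4 by ring, Real.cos_pi_sub,
        Real.cos_pi_div_four]
    rw [h2] at h1
    have h3 : (1.4 : ℝ) ≤ √2 := Real.le_sqrt_of_sq_le (by norm_num)
    linarith
  have hα1 : 1 / 3 < α := by
    rw [hα, lt_div_iff₀ Real.two_pi_pos]; linarith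
  have hα2 : α < 3 / 8 := by
    rw [hα, div_lt_iff₀ Real.two_pi_pos]; linarith
  -- complex data
  set w : ℂ := dir α 1 with hw
  have hwe : w = Complex.exp (θ * Complex.I) := by
    rw [hw, dir]
    congr 1
    rw [← hαθ]; push_cast; ring
  set β : ℂ := Complex.exp (-(θ * Complex.I)) with hβ
  have hβw : β * w = 1 := by rw [hwe, hβ, ← Complex.exp_add]; simp
  have hw1 : w ≠ 1 := by
    have := pow_ne_one α hirr 1 le_rfl
    rwa [pow_one] at this
  set E : ℂ := Complex.exp (δ * Complex.I) with hE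
  set E' : ℂ := Complex.exp (-(δ * Complex.I)) with hE'
  have hEE : E * E' = 1 := by rw [hE, hE', ← Complex.exp_add]; simp
  have hcosδ : (2 * Real.cos δ : ℂ) = E + E' := by
    rw [Complex.ofReal_cos, Complex.cos, hE, hE', neg_mul]; ring
  have hcosθ : (2 * Real.cos θ : ℂ) = w + β := by
    rw [Complex.ofReal_cos, Complex.cos, hwe, hβ, neg_mul]; ring
  have hcosθδ : (2 * Real.cos (θ + δ) : ℂ) = w * E + β * E' := by
    rw [Complex.ofReal_cos, Complex.cos, hwe, hβ, hE, hE', ← Complex.exp_add, ← Complex.exp_add]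
    push_cast
    rw [show ((θ : ℂ) + δ) * Complex.I = θ * Complex.I + δ * Complex.I by ring,
      show -((θ : ℂ) + δ) * Complex.I = -(θ * Complex.I) + -(δ * Complex.I) by ring]
    ring
  have hcosδ0 : 0.99 < Real.cos δ := by
    have := Real.one_sub_sq_div_two_le_cos (x := δ)
    have h1 : δ ^ 2 ≤ 1 / 2000 := by
      rw [← sq_abs]; nlinarith [abs_nonneg δ]
    linarith
  -- the relation defining κ
  have hrel : (1 + κ) * Real.cos (θ + δ) = 2 * (1 + 2 * Real.cos θ) * Real.cos δ := by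
    have h1 : κ * Real.cos (θ + δ) =
        Real.cos δ * (2 + 3 * Real.cos θ) + Real.sin θ * Real.sin δ := by
      rw [hκdef, kap, div_mul_cancel₀]
      exact (by linarith : Real.cos (θ + δ) < 0).ne
    have h2 := Real.cos_add θ δ
    linear_combination h1 + h2
  have hrelC : (1 + (κ : ℂ)) * (w * E + β * E') = 2 * (1 + (w + β)) * (E + E') := by
    rw [← hcosδ, ← hcosθ, ← hcosθδ]
    have : (((1 + κ) * Real.cos (θ + δ) : ℝ) : ℂ) =
        ((2 * (1 + 2 * Real.cos θ) * Real.cos δ : ℝ) : ℂ) := by rw [hrel]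
    push_cast at this ⊢
    linear_combination 2 * this
  have hEne : E + E' ≠ 0 := by
    rw [← hcosδ]
    have : (2 * Real.cos δ : ℝ) ≠ 0 := by linarith
    exact_mod_cast this
  -- the point v
  set v : ℂ := (1 + (κ : ℂ)) / (E + E') * E' with hv
  have hveq : v = (((1 + κ) / (2 * Real.cos δ) : ℝ) : ℂ) * Complex.exp (((-δ : ℝ) : ℂ) *
      Complex.I) := by
    rw [hv, ← hcosδ, hE']
    push_cast
    rw [neg_mul]
  have hvre : v.re = (1 + κ) / 2 := by
    rw [hveq, Complex.re_ofReal_mul, Complex.exp_ofReal_mul_I_re, Real.cos_neg]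
    have : Real.cos δ ≠ 0 := by linarith
    field_simp
  have hvim : |v.im| ≤ 0.001 := by
    rw [hveq, Complex.im_ofReal_mul, Complex.exp_ofReal_mul_I_im, Real.sin_neg, abs_mul, abs_neg,
      abs_of_pos (by positivity)]
    have h1 : |Real.sin δ| ≤ 1 / 2000 := (Real.abs_sin_le_abs).trans hδ'
    have h2 : (1 + κ) / (2 * Real.cos δ) ≤ 1 := by
      rw [div_le_one (by linarith)]; linarith
    calc _ ≤ 1 * (1 / 2000 : ℝ) := mul_le_mul h2 h1 (abs_nonneg _) (by norm_num)
      _ ≤ 0.001 := by norm_num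
  have hvim' := abs_le.mp hvim
  have hβre : β.re = Real.cos θ := by
    rw [hβ, ← neg_mul, ← Complex.ofReal_neg, Complex.exp_ofReal_mul_I_re, Real.cos_neg]
  have hβim : β.im = -Real.sin θ := by
    rw [hβ, ← neg_mul, ← Complex.ofReal_neg, Complex.exp_ofReal_mul_I_im, Real.sin_neg]
  have hsc := Real.sin_sq_add_cos_sq θ
  -- powers of w
  have hwb : w ^ b = -(E * E) := by
    rw [hwe, ← Complex.exp_nat_mul, hE, ← Complex.exp_add]
    have e1 : (b : ℂ) * (θ * Complex.I) = (δ * Complex.I + δ * Complex.I) +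
        (a * (Real.pi * Complex.I)) := by
      have h1 : (b : ℝ) * θ = a * Real.pi + 2 * δ := by
        rw [hθdef, Th]; field_simp
      have h2 : (b : ℂ) * θ = a * Real.pi + 2 * δ := by exact_mod_cast h1
      linear_combination Complex.I * h2
    rw [e1, Complex.exp_add, Complex.exp_int_mul, Complex.exp_pi_mul_I, Odd.neg_one_zpow haodd]
    ring
  obtain ⟨k, hkb⟩ : ∃ k, b = k + 1 := ⟨b - 1, by omega⟩
  have hwk : w ^ k = -(E * E) * β := by
    rw [← hwb, hkb, pow_succ]
    linear_combination (-(w ^ k)) * hβw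
  have h5 : β * (β * (β * (v - 2) - 2) - 2) = w ^ k * v := by
    rw [hwk, hv]
    have key : (β ^ 2 + E ^ 2) * ((1 + (κ : ℂ)) / (E + E') * E') = 2 * β * (1 + (w + β)) := by
      rw [← mul_assoc, mul_div_assoc', div_mul_eq_mul_div, div_eq_iff hEne]
      linear_combination β * hrelC + (1 + (κ : ℂ)) * E * hEE - (1 + (κ : ℂ)) * E * hβw
    linear_combination β * key + 2 * β * hβw
  have h4 : ∀ j, 1 ≤ j → j ≤ k → (w ^ j * v).re < 1 / 2 := by
    intro j hj1 hj2
    -- reduce the angle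
    set N : ℤ := (j * a) % (2 * b) with hN
    have h2b : (0 : ℤ) < 2 * b := by omega
    have hN0 : 0 ≤ N := Int.emod_nonneg _ h2b.ne'
    have hN2 : N < 2 * b := Int.emod_lt_of_pos _ h2b
    have hN1 : N ≠ 0 := by
      intro h
      have h1 : (2 * (b : ℤ)) ∣ j * a := Int.dvd_of_emod_eq_zero h
      have h2 : (b : ℤ) ∣ j * a := (Dvd.intro_left 2 rfl).trans h1
      have h3 : (b : ℤ) ∣ j := hcop.symm.dvd_of_dvd_mul_right h2
      have h4 : b ∣ j := by exact_mod_cast h3
      have h5 := Nat.le_of_dvd (by omega) h4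
      omega
    obtain ⟨M, hM⟩ : ∃ M : ℕ, (M : ℤ) = N := ⟨N.toNat, Int.toNat_of_nonneg hN0⟩
    set q : ℤ := (j * a) / (2 * b) with hq
    have hdiv : (j * a : ℤ) = N + 2 * b * q := by
      rw [hN, hq]; exact (Int.emod_add_mul_ediv _ _).symm
    have hdivR : (j : ℝ) * a = M + 2 * b * q := by
      rw [← hM] at hdiv
      exact_mod_cast hdiv
    have hangle : (j : ℝ) * θ + -δ = (M * Real.pi / b + (2 * j / b - 1) * δ) +
        q * (2 * Real.pi) := by
      rw [hθdef, Th]
      field_simp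
      linear_combination Real.pi * hdivR
    have hre : (w ^ j * v).re = (1 + κ) / (2 * Real.cos δ) *
        Real.cos (M * Real.pi / b + (2 * j / b - 1) * δ) := by
      rw [← Real.cos_add_int_mul_two_pi (M * Real.pi / b + (2 * j / b - 1) * δ) q, ← hangle, hveq, hwe, ← Complex.exp_nat_mul,
        mul_left_comm, ← Complex.exp_add, Complex.re_ofReal_mul]
      congr 1
      rw [show (j : ℂ) * (θ * Complex.I) + ((-δ : ℝ) : ℂ) * Complex.I =
        (((j : ℝ) * θ + -δ : ℝ) : ℂ) * Complex.I by push_cast; ring,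
        Complex.exp_ofReal_mul_I_re]
    have hj' : (1 : ℝ) ≤ j := by exact_mod_cast hj1
    have hj'' : (j : ℝ) ≤ b := by
      have : j ≤ b := by omega
      exact_mod_cast this
    have hη : |(2 * j / b - 1) * δ| ≤ |δ| := by
      rw [abs_mul]
      have h1 : |2 * (j : ℝ) / b - 1| ≤ 1 := by
        rw [abs_le]
        constructor
        · have : 0 ≤ 2 * (j : ℝ) / b := by positivity
          linarith
        · have : 2 * (j : ℝ) / b ≤ 2 := by
            rw [div_le_iff₀ hb0]; linarith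
          linarith
      calc _ ≤ 1 * |δ| := mul_le_mul_of_nonneg_right h1 (abs_nonneg _)
        _ = |δ| := one_mul _
    have hcb := cos_bound b hb M (by omega) (by omega) _ δ hη hδ
    have hgap := gap b hb δ hδ
    rw [hre, div_mul_eq_mul_div, div_lt_iff₀ (by linarith)]
    set cA := Real.cos (M * Real.pi / b + (2 * j / b - 1) * δ) with hcA
    have hcA1 : cA ≤ 1 := Real.cos_le_one _
    have hcA2 : κ * cA ≤ κ * 1 := mul_le_mul_of_nonneg_left hcA1 hk0.le
    linarith
  have h2 : 1 / 2 < (β * (v - 2)).re := by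
    rw [Complex.mul_re, hβre, hβim, Complex.sub_re, Complex.sub_im, hvre]
    simp only [Complex.re_ofNat, Complex.im_ofNat, sub_zero]
    have i1 : 0.9 < Real.cos θ * ((1 + κ) / 2 - 2) := by
      have : 0.666 * 1.49 ≤ (-Real.cos θ) * (2 - (1 + κ) / 2) :=
        mul_le_mul (by linarith) (by linarith) (by norm_num) (by linarith)
      linarith
    have i2 : |Real.sin θ * v.im| ≤ 1 * 0.001 := by
      rw [abs_mul]
      exact mul_le_mul (Real.abs_sin_le_one θ) hvim (abs_nonneg _) (by norm_num)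
    have i3 := (abs_le.mp i2).1
    linarith
  have h3 : 1 / 2 < (β * (β * (v - 2) - 2)).re := by
    have hβ2 : (β * (β * (v - 2) - 2)).re = (Real.cos θ ^ 2 - Real.sin θ ^ 2) * (v.re - 2) +
        2 * (Real.cos θ * Real.sin θ) * v.im - 2 * Real.cos θ := by
      simp only [Complex.mul_re, Complex.mul_im, Complex.sub_re, Complex.sub_im, hβre, hβim,
        Complex.re_ofNat, Complex.im_ofNat]
      ring
    rw [hβ2, hvre]
    have i0 : (-Real.cos θ) * (-Real.cos θ) ≤ 0.667 * 0.667 :=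
      mul_le_mul (by linarith) (by linarith) (by linarith) (by norm_num)
    have i1 : Real.cos θ ^ 2 - Real.sin θ ^ 2 < -0.1 := by
      have : Real.cos θ ^ 2 = (-Real.cos θ) * (-Real.cos θ) := by ring
      linarith
    have i2 : 0.1 < (Real.cos θ ^ 2 - Real.sin θ ^ 2) * ((1 + κ) / 2 - 2) := by
      have : 0.1 * 1.49 ≤ (-(Real.cos θ ^ 2 - Real.sin θ ^ 2)) * (2 - (1 + κ) / 2) :=
        mul_le_mul (by linarith) (by linarith) (by norm_num) (by linarith)
      linarith
    have i3 : |2 * (Real.cos θ * Real.sin θ) * v.im| ≤ 1 * 0.001 := by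
      rw [abs_mul]
      apply mul_le_mul _ hvim (abs_nonneg _) (by norm_num)
      have j1 := sq_nonneg (Real.cos θ + Real.sin θ)
      have j2 := sq_nonneg (Real.cos θ - Real.sin θ)
      rw [abs_le]
      constructor <;> linarith
    have i4 := (abs_le.mp i3).1
    linarith
  obtain ⟨z, hz1, hz2⟩ := orbit_of_conditions α w hw hw1 β hβw k (by omega) v
    (by rw [hvre]; linarith) h2 h3 h4 h5
  refine ⟨α, hα1, hα2, hirr, z, k + 3, ?_, ?_, hz1, fun p => ?_⟩
  · have := (le_max_left B 1000).trans hbB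
    omega
  · omega
  · rw [hz2]
    exact word_period k p (by omega)

end

end Pool.Agent.V1185.GreedyPeriodic
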