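import Mathlib

/-!
The greedy planar walk `z_n = z_{n-1} ± e^{2π i α n}` and its reduction to a piecewise isometry.
-/

namespace Pool.Agent.V1185.GreedyWalk

open Filter Topology

noncomputable section

/-- The unit vector `e^{2π i α n}`. -/
def dir (α : ℝ) (n : ℕ) : ℂ := Complex.exp (2 * Real.pi * Complex.I * α * n)

/-- The sign chosen at time `n` from the point `z = z_{n-1}`: `+1` iff `|z + e| < |z - e|`. -/
def sgn (α : ℝ) (n : ℕ) (z : ℂ) : ℤ := if ‖z + dir α n‖ < ‖z - dir α n‖ then 1 else -1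

/-- `walk α z₀ n` is `z_{n-1}`, with `z_{-1} = z₀`. -/
def walk (α : ℝ) (z₀ : ℂ) : ℕ → ℂ
  | 0 => z₀
  | n + 1 => walk α z₀ n + (sgn α n (walk α z₀ n) : ℂ) * dir α n

/-- No tie ever occurs. -/
def Admissible (α : ℝ) (z₀ : ℂ) : Prop :=
  ∀ n, ‖walk α z₀ n + dir α n‖ ≠ ‖walk α z₀ n - dir α n‖

/-- The sign sequence `ε_n`. -/
def signs (α : ℝ) (z₀ : ℂ) (n : ℕ) : ℤ := sgn α n (walk α z₀ n)

/-- `p ≥ 1` is a period of the sequence from some index on. -/
def IsEventualPeriod (s : ℕ → ℤ) (p : ℕ) : Prop := 1 ≤ p ∧ ∃ N, ∀ n, N ≤ n → s (n + p) = s n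

/-- The sequence is eventually periodic. -/
def EventuallyPeriodic (s : ℕ → ℤ) : Prop := ∃ p, IsEventualPeriod s p

lemma dir_eq_pow (α : ℝ) (n : ℕ) : dir α n = dir α 1 ^ n := by
  rw [dir, dir, ← Complex.exp_nat_mul]
  congr 1
  push_cast
  ring

lemma norm_dir (α : ℝ) (n : ℕ) : ‖dir α n‖ = 1 := by
  rw [dir]
  have : (2 * Real.pi * Complex.I * α * n : ℂ) = ((2 * Real.pi * α * n : ℝ) : ℂ) * Complex.I := by
    push_cast; ring
  rw [this, Complex.norm_exp_ofReal_mul_I]

lemma norm_add_lt_iff (x : ℂ) : ‖x + 1‖ < ‖x - 1‖ ↔ x.re < 0 := by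
  rw [← sq_lt_sq₀ (norm_nonneg _) (norm_nonneg _), ← Complex.normSq_eq_norm_sq,
    ← Complex.normSq_eq_norm_sq, Complex.normSq_apply, Complex.normSq_apply]
  simp
  constructor <;> intro h <;> nlinarith

lemma norm_add_eq_iff (x : ℂ) : ‖x + 1‖ = ‖x - 1‖ ↔ x.re = 0 := by
  rw [← sq_eq_sq₀ (norm_nonneg _) (norm_nonneg _), ← Complex.normSq_eq_norm_sq,
    ← Complex.normSq_eq_norm_sq, Complex.normSq_apply, Complex.normSq_apply]
  simp
  constructor <;> intro h <;> nlinarith

/-- Reduction to the piecewise isometry. -/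
lemma reduction (α : ℝ) (w : ℂ) (hw : w = dir α 1) (hw1 : w ≠ 1) (b : ℂ) (hb : b * w = 1)
    (u : ℕ → ℂ) (s : ℕ → ℤ)
    (h : ∀ n, ((u n).re < 1 / 2 ∧ s n = 1 ∧ u (n + 1) = b * u n) ∨
      (1 / 2 < (u n).re ∧ s n = -1 ∧ u (n + 1) = b * (u n - 2))) :
    Admissible α (u 0 + 1 / (w - 1)) ∧ ∀ n, signs α (u 0 + 1 / (w - 1)) n = s n := by
  have hwn : ‖w‖ = 1 := by rw [hw, norm_dir]
  have hw0 : w - 1 ≠ 0 := sub_ne_zero.mpr hw1
  have hcre : (1 / (w - 1)).re = -1 / 2 := by
    have h1 : w.re ^ 2 + w.im ^ 2 = 1 := by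
      have := Complex.sq_norm w
      rw [hwn, Complex.normSq_apply] at this
      linarith
    have h2 : w.re ≠ 1 := by
      intro hre
      apply hw1
      have : w.im = 0 := by nlinarith
      exact Complex.ext (by simpa using hre) (by simpa using this)
    rw [one_div, Complex.inv_re, Complex.normSq_apply]
    simp only [Complex.sub_re, Complex.one_re, Complex.sub_im, Complex.one_im, sub_zero]
    have h3 : (w.re - 1) * (w.re - 1) + w.im * w.im = -2 * (w.re - 1) := by nlinarith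
    rw [h3]
    have h4 : w.re - 1 ≠ 0 := sub_ne_zero.mpr h2
    field_simp
  have hwpow : ∀ n, dir α n = w ^ n := fun n => by rw [hw, dir_eq_pow]
  have hpown : ∀ n : ℕ, ‖w ^ n‖ = 1 := fun n => by rw [norm_pow, hwn, one_pow]
  have main : ∀ n, walk α (u 0 + 1 / (w - 1)) n = w ^ n * (u n + 1 / (w - 1)) ∧
      signs α (u 0 + 1 / (w - 1)) n = s n := by
    have hs : ∀ n, walk α (u 0 + 1 / (w - 1)) n = w ^ n * (u n + 1 / (w - 1)) →
        signs α (u 0 + 1 / (w - 1)) n = s n := by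
      intro n hn
      rw [signs, sgn, hn, hwpow]
      have e1 : w ^ n * (u n + 1 / (w - 1)) + w ^ n = w ^ n * ((u n + 1 / (w - 1)) + 1) := by ring
      have e2 : w ^ n * (u n + 1 / (w - 1)) - w ^ n = w ^ n * ((u n + 1 / (w - 1)) - 1) := by ring
      rw [e1, e2, norm_mul, norm_mul, hpown, one_mul, one_mul]
      have h9 := norm_add_lt_iff (u n + 1 / (w - 1))
      rw [Complex.add_re, hcre] at h9
      rcases h n with ⟨h1, h2, -⟩ | ⟨h1, h2, -⟩
      · rw [if_pos (h9.mpr (by linarith)), h2]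
      · rw [if_neg (fun hh => by have := h9.mp hh; linarith), h2]
    intro n
    induction n with
    | zero => exact ⟨by simp [walk], hs 0 (by simp [walk])⟩
    | succ n ih =>
      have hstep : walk α (u 0 + 1 / (w - 1)) (n + 1) =
          w ^ (n + 1) * (u (n + 1) + 1 / (w - 1)) := by
        rw [walk]
        have h1 := ih.2
        rw [signs] at h1
        rw [h1, ih.1, hwpow, pow_succ]
        have key : w * (1 / (w - 1)) = 1 / (w - 1) + 1 := by field_simp; ring
        rcases h n with ⟨-, h2, h3⟩ | ⟨-, h2, h3⟩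
        · rw [h2, h3]
          push_cast
          linear_combination (-(w ^ n)) * key + (-(w ^ n) * u n) * hb
        · rw [h2, h3]
          push_cast
          linear_combination (-(w ^ n)) * key + (-(w ^ n) * (u n - 2)) * hb
      exact ⟨hstep, hs _ hstep⟩
  refine ⟨fun n => ?_, fun n => (main n).2⟩
  rw [(main n).1, hwpow]
  have e1 : w ^ n * (u n + 1 / (w - 1)) + w ^ n = w ^ n * ((u n + 1 / (w - 1)) + 1) := by ring
  have e2 : w ^ n * (u n + 1 / (w - 1)) - w ^ n = w ^ n * ((u n + 1 / (w - 1)) - 1) := by ring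
  rw [e1, e2, norm_mul, norm_mul, hpown, one_mul, one_mul, Ne, norm_add_eq_iff, Complex.add_re,
    hcre]
  rcases h n with ⟨h1, -⟩ | ⟨h1, -⟩ <;> intro h5 <;> linarith

/-- For irrational `α` the powers of `e^{2π i α}` come near every unit complex number. -/
lemma exists_pow_mem (α : ℝ) (hα : Irrational α) (c : ℂ) (hc : ‖c‖ = 1) (O : Set ℂ)
    (hO : O ∈ 𝓝 c) (N : ℕ) : ∃ k, N ≤ k ∧ dir α 1 ^ k ∈ O := by
  have : Fact (0 < 2 * Real.pi) := ⟨Real.two_pi_pos⟩
  have hd : DenseRange (· • ((2 * Real.pi * α : ℝ) : AddCircle (2 * Real.pi)) :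
      ℤ → AddCircle (2 * Real.pi)) := by
    rw [AddCircle.denseRange_zsmul_coe_iff]
    rwa [mul_div_assoc, mul_div_assoc', mul_div_cancel_left₀ _ (ne_of_gt Real.two_pi_pos)]
  set y : AddCircle (2 * Real.pi) := ((2 * Real.pi * α : ℝ) : AddCircle (2 * Real.pi)) with hy
  set x : AddCircle (2 * Real.pi) := ((Complex.arg c : ℝ) : AddCircle (2 * Real.pi)) with hx
  have h1 : MapClusterPt x atTop (fun n : ℕ => n • y) := by
    refine ((mapClusterPt_atTop_nsmul_tfae x y).out 0 3).mpr ?_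
    exact hd x
  have h2 : MapClusterPt ((AddCircle.toCircle x : Circle) : ℂ) atTop
      (fun n : ℕ => ((AddCircle.toCircle (n • y) : Circle) : ℂ)) := by
    have hcont : Continuous (fun t : AddCircle (2 * Real.pi) =>
        ((AddCircle.toCircle t : Circle) : ℂ)) :=
      continuous_subtype_val.comp AddCircle.continuous_toCircle
    exact h1.continuousAt_comp (f := fun t : AddCircle (2 * Real.pi) =>
        ((AddCircle.toCircle t : Circle) : ℂ)) hcont.continuousAt
  have e1 : ((AddCircle.toCircle x : Circle) : ℂ) = c := by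
    rw [hx, AddCircle.toCircle_apply_mk, Circle.coe_exp]
    have : (2 * Real.pi / (2 * Real.pi) * Complex.arg c : ℝ) = Complex.arg c := by
      field_simp
    rw [this]
    have h := Complex.norm_mul_exp_arg_mul_I c
    rwa [hc, Complex.ofReal_one, one_mul] at h
  have e2 : ∀ n : ℕ, ((AddCircle.toCircle (n • y) : Circle) : ℂ) = dir α 1 ^ n := by
    intro n
    rw [AddCircle.toCircle_nsmul, Circle.coe_pow, hy, AddCircle.toCircle_apply_mk, Circle.coe_exp,
      dir]
    congr 2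
    have : (2 * Real.pi / (2 * Real.pi) * (2 * Real.pi * α) : ℝ) = 2 * Real.pi * α := by
      field_simp
    rw [this]
    push_cast; ring
  rw [e1] at h2
  simp only [e2] at h2
  have h3 := h2.frequently hO
  rw [frequently_atTop] at h3
  obtain ⟨k, hk, hk2⟩ := h3 N
  exact ⟨k, hk, hk2⟩

/-- For irrational `α` no positive power of `e^{2π i α}` is `1`. -/
lemma pow_ne_one (α : ℝ) (hα : Irrational α) (k : ℕ) (hk : 1 ≤ k) : dir α 1 ^ k ≠ 1 := by
  intro h
  rw [← dir_eq_pow, dir, Complex.exp_eq_one_iff] at h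
  obtain ⟨n, hn⟩ := h
  have h1 : (α : ℂ) * k = n := by
    have : (2 * Real.pi * Complex.I : ℂ) ≠ 0 := Complex.two_pi_I_ne_zero
    apply mul_left_cancel₀ this
    linear_combination hn
  have h2 : α * k = n := by exact_mod_cast h1
  have hk0 : (k : ℝ) ≠ 0 := by positivity
  apply hα
  refine ⟨(n : ℚ) / k, ?_⟩
  push_cast
  rw [← h2]
  field_simp

end

end Pool.Agent.V1185.GreedyWalk
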