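import Mathlib

/-!
# The sine basis of `L²(0,1)`
-/

namespace Pool.Agent.V1185.SineBasis

open MeasureTheory Set Real
open scoped RealInnerProductSpace

/-- Real `L²(0,1)`. -/
noncomputable abbrev L2 := Lp ℝ 2 (volume.restrict (Ioo (0 : ℝ) 1))

/-- The function `√2 sin((n+1)πz)`. -/
noncomputable def sf (n : ℕ) (z : ℝ) : ℝ := √2 * sin (((n : ℝ) + 1) * π * z)

lemma sf_continuous (n : ℕ) : Continuous (sf n) := by
  unfold sf; fun_prop

lemma sf_memLp (n : ℕ) : MemLp (sf n) 2 (volume.restrict (Ioo (0 : ℝ) 1)) := by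
  refine MemLp.of_bound (sf_continuous n).aestronglyMeasurable (√2) ?_
  refine Filter.Eventually.of_forall fun z => ?_
  unfold sf
  rw [norm_mul, Real.norm_of_nonneg (Real.sqrt_nonneg 2)]
  exact mul_le_of_le_one_right (Real.sqrt_nonneg 2) (abs_sin_le_one _)

/-- The sine eigenfunction `√2 sin((n+1)πz)` as an element of `L²(0,1)`. -/
noncomputable def e (n : ℕ) : L2 := (sf_memLp n).toLp (sf n)

lemma inner_e (n : ℕ) (x : L2) : ⟪e n, x⟫ = ∫ z in Ioo (0 : ℝ) 1, sf n z * x z := by
  rw [L2.inner_def]
  refine integral_congr_ae ?_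
  filter_upwards [(sf_memLp n).coeFn_toLp] with z hz
  simp only [e, hz]
  simp [mul_comm]

lemma cos_int (k : ℤ) (hk : k ≠ 0) : ∫ z in (0 : ℝ)..1, cos ((k : ℝ) * π * z) = 0 := by
  have hk' : (k : ℝ) * π ≠ 0 := mul_ne_zero (by exact_mod_cast hk) pi_ne_zero
  rw [intervalIntegral.integral_comp_mul_left (fun z => cos z) hk']
  simp [Real.sin_int_mul_pi]

lemma orthonormal_e : Orthonormal ℝ e := by
  rw [orthonormal_iff_ite]
  intro i j
  rw [inner_e]
  have h1 : ∫ z in Ioo (0 : ℝ) 1, sf i z * e j z = ∫ z in Ioo (0 : ℝ) 1, sf i z * sf j z := by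
    refine integral_congr_ae ?_
    filter_upwards [(sf_memLp j).coeFn_toLp] with z hz
    simp only [e, hz]
  rw [h1, ← integral_Ioc_eq_integral_Ioo, ← intervalIntegral.integral_of_le zero_le_one]
  have h2 : ∀ z, sf i z * sf j z = cos ((((i : ℤ) - (j : ℤ) : ℤ) : ℝ) * π * z) -
      cos ((((i : ℤ) + (j : ℤ) + 2 : ℤ) : ℝ) * π * z) := by
    intro z
    unfold sf
    have h3 : √2 * sin (((i : ℝ) + 1) * π * z) * (√2 * sin (((j : ℝ) + 1) * π * z)) =
        2 * (sin (((i : ℝ) + 1) * π * z) * sin (((j : ℝ) + 1) * π * z)) := by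
      have : √2 * √2 = 2 := Real.mul_self_sqrt (by norm_num)
      linear_combination (sin (((i : ℝ) + 1) * π * z) * sin (((j : ℝ) + 1) * π * z)) * this
    rw [h3]
    have e1 : (((i : ℤ) - (j : ℤ) : ℤ) : ℝ) * π * z =
        ((i : ℝ) + 1) * π * z - ((j : ℝ) + 1) * π * z := by push_cast; ring
    have e2 : (((i : ℤ) + (j : ℤ) + 2 : ℤ) : ℝ) * π * z =
        ((i : ℝ) + 1) * π * z + ((j : ℝ) + 1) * π * z := by push_cast; ring
    rw [e1, e2, cos_sub, cos_add]
    ring
  simp_rw [h2]
  rw [intervalIntegral.integral_sub (by apply Continuous.intervalIntegrable; fun_prop)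
    (by apply Continuous.intervalIntegrable; fun_prop),
    cos_int ((i : ℤ) + (j : ℤ) + 2) (by omega), sub_zero]
  split_ifs with hij
  · subst hij; simp
  · exact cos_int _ (by omega)

lemma integrable_mul (x : L2) {g : ℝ → ℝ} (hg : Continuous g) :
    Integrable (fun z => g z * x z) (volume.restrict (Ioo (0 : ℝ) 1)) := by
  have hx : Integrable x (volume.restrict (Ioo (0 : ℝ) 1)) :=
    (Lp.memLp x).integrable (by norm_num)
  obtain ⟨C, hC⟩ := (isCompact_Icc (a := (0 : ℝ)) (b := 1)).exists_bound_of_continuousOn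
    hg.continuousOn
  refine hx.bdd_mul (c := C) hg.aestronglyMeasurable ?_
  filter_upwards [ae_restrict_mem measurableSet_Ioo] with z hz
  exact hC z (Ioo_subset_Icc_self hz)

lemma integral_trig_eq_zero {x : L2} (hx : ∀ n, ⟪e n, x⟫ = 0) (k : ℕ) :
    ∫ z in Ioo (0 : ℝ) 1, (sin (π * z) * cos (π * z) ^ k) * x z = 0 := by
  -- general statement on the span
  have key : ∀ k n : ℕ, ∫ z in Ioo (0 : ℝ) 1,
      (sin (((n : ℝ)) * π * z) * cos (π * z) ^ k) * x z = 0 := by
    intro k
    induction k with
    | zero =>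
      intro n
      rcases n with _ | n
      · simp
      · have h1 := hx n
        rw [inner_e] at h1
        have h2 : ∀ z, (sin ((((n + 1 : ℕ)) : ℝ) * π * z) * cos (π * z) ^ 0) * x z =
            (√2)⁻¹ * (sf n z * x z) := by
          intro z
          have : √2 ≠ 0 := by positivity
          unfold sf
          push_cast
          field_simp
        simp_rw [h2]
        rw [integral_const_mul, h1, mul_zero]
    | succ k ih =>
      intro n
      rcases n with _ | n
      · simp
      · have h2 : ∀ z, (sin ((((n + 1 : ℕ)) : ℝ) * π * z) * cos (π * z) ^ (k + 1)) * x z =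
            (1 / 2) * ((sin ((((n + 2 : ℕ)) : ℝ) * π * z) * cos (π * z) ^ k) * x z) +
            (1 / 2) * ((sin (((n : ℕ) : ℝ) * π * z) * cos (π * z) ^ k) * x z) := by
          intro z
          have e1 : ((((n + 2 : ℕ)) : ℝ) * π * z) = (((n + 1 : ℕ)) : ℝ) * π * z + π * z := by
            push_cast; ring
          have e2 : ((((n : ℕ)) : ℝ) * π * z) = (((n + 1 : ℕ)) : ℝ) * π * z - π * z := by
            push_cast; ring
          rw [e1, e2, sin_add, sin_sub]
          ring
        simp_rw [h2]
        rw [integral_add, integral_const_mul, integral_const_mul, ih, ih]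
        · simp
        · exact (integrable_mul x (by fun_prop)).const_mul _
        · exact (integrable_mul x (by fun_prop)).const_mul _
  have := key k 1
  simpa using this

lemma integral_poly_eq_zero {x : L2} (hx : ∀ n, ⟪e n, x⟫ = 0) (p : Polynomial ℝ) :
    ∫ z in Ioo (0 : ℝ) 1, (sin (π * z) * p.eval (cos (π * z))) * x z = 0 := by
  induction p using Polynomial.induction_on' with
  | add p q hp hq =>
    have h2 : ∀ z, (sin (π * z) * (p + q).eval (cos (π * z))) * x z =
        (sin (π * z) * p.eval (cos (π * z))) * x z +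
        (sin (π * z) * q.eval (cos (π * z))) * x z := by
      intro z; rw [Polynomial.eval_add]; ring
    simp_rw [h2]
    rw [integral_add, hp, hq, add_zero]
    · exact integrable_mul x (by fun_prop)
    · exact integrable_mul x (by fun_prop)
  | monomial k a =>
    have h2 : ∀ z, (sin (π * z) * (Polynomial.monomial k a).eval (cos (π * z))) * x z =
        a * ((sin (π * z) * cos (π * z) ^ k) * x z) := by
      intro z; rw [Polynomial.eval_monomial]; ring
    simp_rw [h2]
    rw [integral_const_mul, integral_trig_eq_zero hx, mul_zero]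

lemma integral_cont_eq_zero {x : L2} (hx : ∀ n, ⟪e n, x⟫ = 0) {g : ℝ → ℝ}
    (hg : Continuous g) :
    ∫ z in Ioo (0 : ℝ) 1, (sin (π * z) * g z) * x z = 0 := by
  have hxi : Integrable x (volume.restrict (Ioo (0 : ℝ) 1)) :=
    (Lp.memLp x).integrable (by norm_num)
  have hG : Continuous fun c : ℝ => g (arccos c / π) := by
    have := Real.continuous_arccos
    fun_prop
  set M : ℝ := ∫ z in Ioo (0 : ℝ) 1, |x z| with hM
  have hM0 : 0 ≤ M := integral_nonneg fun z => abs_nonneg _
  have hle : ∀ ε : ℝ, 0 < ε →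
      |∫ z in Ioo (0 : ℝ) 1, (sin (π * z) * g z) * x z| ≤ ε * M := by
    intro ε hε
    obtain ⟨p, hp⟩ := exists_polynomial_near_of_continuousOn (-1) 1 _ hG.continuousOn ε hε
    have h1 : ∫ z in Ioo (0 : ℝ) 1, (sin (π * z) * g z) * x z =
        ∫ z in Ioo (0 : ℝ) 1, (sin (π * z) * (g z - p.eval (cos (π * z)))) * x z := by
      have h2 : ∀ z, (sin (π * z) * (g z - p.eval (cos (π * z)))) * x z =
          (sin (π * z) * g z) * x z - (sin (π * z) * p.eval (cos (π * z))) * x z := by
        intro z; ring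
      simp_rw [h2]
      rw [integral_sub, integral_poly_eq_zero hx, sub_zero]
      · exact integrable_mul x (by fun_prop)
      · exact integrable_mul x (by fun_prop)
    rw [h1, hM, ← integral_const_mul]
    refine (abs_integral_le_integral_abs).trans ?_
    refine integral_mono_ae ?_ ?_ ?_
    · exact (integrable_mul x (by fun_prop)).abs
    · exact hxi.abs.const_mul ε
    · filter_upwards [ae_restrict_mem measurableSet_Ioo] with z hz
      rw [abs_mul]
      refine mul_le_mul_of_nonneg_right ?_ (abs_nonneg _)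
      rw [abs_mul]
      have h3 := hp (cos (π * z)) ⟨neg_one_le_cos _, cos_le_one _⟩
      rw [arccos_cos (by have := hz.1; positivity)
        (by have := hz.2; have := pi_pos; nlinarith [hz.2])] at h3
      have e1 : π * z / π = z := by field_simp
      rw [e1, abs_sub_comm] at h3
      calc |sin (π * z)| * |g z - p.eval (cos (π * z))| ≤ 1 * ε :=
            mul_le_mul (abs_sin_le_one _) h3.le (abs_nonneg _) zero_le_one
        _ = ε := one_mul ε
  have h0 : |∫ z in Ioo (0 : ℝ) 1, (sin (π * z) * g z) * x z| ≤ 0 := by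
    refine le_of_forall_pos_le_add fun δ hδ => ?_
    have := hle (δ / (M + 1)) (by positivity)
    have h4 : δ / (M + 1) * M ≤ δ := by
      rw [div_mul_eq_mul_div, div_le_iff₀ (by positivity)]
      nlinarith
    linarith
  exact abs_eq_zero.mp (le_antisymm h0 (abs_nonneg _))

lemma eq_zero_of_inner_e {x : L2} (hx : ∀ n, ⟪e n, x⟫ = 0) : x = 0 := by
  have hxi : Integrable x (volume.restrict (Ioo (0 : ℝ) 1)) :=
    (Lp.memLp x).integrable (by norm_num)
  have h1 : ∀ᵐ z ∂(volume : Measure ℝ), z ∈ Ioo (0 : ℝ) 1 → sin (π * z) * x z = 0 := by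
    refine IsOpen.ae_eq_zero_of_integral_contDiff_smul_eq_zero isOpen_Ioo ?_ ?_
    · have h2 : IntegrableOn (fun z => sin (π * z) * x z) (Ioo (0 : ℝ) 1) :=
        integrable_mul x (by fun_prop)
      exact h2.locallyIntegrableOn
    · intro g hg _ hgs
      have h2 := integral_cont_eq_zero hx hg.continuous
      refine Eq.trans ?_ h2
      rw [← integral_indicator measurableSet_Ioo]
      refine integral_congr_ae (Filter.Eventually.of_forall fun z => ?_)
      simp only [smul_eq_mul]
      by_cases hz : z ∈ Ioo (0 : ℝ) 1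
      · rw [indicator_of_mem hz]; ring
      · rw [indicator_of_notMem hz]
        have : g z = 0 := by
          by_contra hne
          exact hz (hgs (subset_tsupport g hne))
        rw [this, zero_mul]
  rw [Lp.eq_zero_iff_ae_eq_zero]
  rw [Filter.EventuallyEq, ae_restrict_iff' measurableSet_Ioo]
  filter_upwards [h1] with z hz hz'
  have h3 := hz hz'
  have h4 : 0 < sin (π * z) := sin_pos_of_pos_of_lt_pi (by have := hz'.1; positivity)
    (by have := pi_pos; nlinarith [hz'.2])
  exact (mul_eq_zero.mp h3).resolve_left h4.ne'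

/-- The sine basis of `L²(0,1)`. -/
noncomputable def basis : HilbertBasis ℕ ℝ L2 :=
  HilbertBasis.mkOfOrthogonalEqBot orthonormal_e (by
    rw [Submodule.eq_bot_iff]
    intro x hx
    refine eq_zero_of_inner_e fun n => ?_
    exact (Submodule.mem_orthogonal _ _).mp hx _ (Submodule.subset_span ⟨n, rfl⟩))

lemma basis_apply (n : ℕ) : basis n = e n := by
  simp [basis]

lemma ext_e {x y : L2} (h : ∀ n, ⟪e n, x⟫ = ⟪e n, y⟫) : x = y := by
  rw [← sub_eq_zero]
  exact eq_zero_of_inner_e fun n => by rw [inner_sub_right, h n, sub_self]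

lemma hasSum_sq (x : L2) : HasSum (fun n => ⟪e n, x⟫ ^ 2) (‖x‖ ^ 2) := by
  have h := basis.hasSum_inner_mul_inner x x
  rw [real_inner_self_eq_norm_sq] at h
  have h2 : (fun n => ⟪e n, x⟫ ^ 2) = fun n => ⟪x, basis n⟫ * ⟪basis n, x⟫ := by
    funext n
    rw [basis_apply, real_inner_comm (e n) x, sq]
  rw [h2]
  exact h

lemma exists_of_coeff {c : ℕ → ℝ} (hc : Summable fun n => c n ^ 2) :
    ∃ y : L2, ∀ n, ⟪e n, y⟫ = c n := by
  have hm : Memℓp c 2 := by
    refine memℓp_gen ?_
    simpa using hc
  refine ⟨basis.repr.symm ⟨c, hm⟩, fun n => ?_⟩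
  rw [← basis_apply, ← HilbertBasis.repr_apply_apply]
  simp

end Pool.Agent.V1185.SineBasis
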